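import Mathlib

/-!
# Powers in the closed right half plane
-/

namespace Pool.Agent.Y285.PK

open Complex Metric Set Filter Topology
open scoped Real

lemma arg_le {s : ℂ} (hs : 0 ≤ s.re) : |arg s| ≤ π / 2 := abs_arg_le_pi_div_two_iff.2 hs

lemma cos_pos {a : ℝ} (ha : 0 < a) (ha1 : a < 1) : 0 < Real.cos (π / 2 * a) := by
  apply Real.cos_pos_of_mem_Ioo
  constructor
  · have := Real.pi_pos
    have h : 0 < π / 2 * a := by positivity
    linarith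
  · have := Real.pi_pos
    nlinarith

lemma re_cpow_ge {s : ℂ} (hs : 0 ≤ s.re) {a : ℝ} (ha : 0 < a) (ha1 : a < 1) :
    Real.cos (π / 2 * a) * ‖s‖ ^ a ≤ (s ^ (a : ℂ)).re := by
  rw [cpow_ofReal_re, mul_comm]
  apply mul_le_mul_of_nonneg_left _ (by positivity)
  rw [← Real.cos_abs (arg s * a), abs_mul, abs_of_pos ha]
  have h1 := arg_le hs
  have hpi := Real.pi_pos
  apply Real.cos_le_cos_of_nonneg_of_le_pi
  · positivity
  · nlinarith
  · exact mul_le_mul_of_nonneg_right h1 ha.le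

lemma re_cpow_nonneg {s : ℂ} (hs : 0 ≤ s.re) {a : ℝ} (ha : 0 < a) (ha1 : a < 1) :
    0 ≤ (s ^ (a : ℂ)).re :=
  le_trans (mul_nonneg (cos_pos ha ha1).le (by positivity)) (re_cpow_ge hs ha ha1)

lemma im_mul_im {s : ℂ} (hs : 0 ≤ s.re) {a : ℝ} (ha : 0 < a) (ha1 : a < 1) :
    0 ≤ (s ^ (a : ℂ)).im * s.im := by
  have h1 := arg_le hs
  have hpi := Real.pi_pos
  rw [cpow_ofReal_im]
  have h2 : s.im = ‖s‖ * Real.sin (arg s) := (Complex.norm_mul_sin_arg s).symm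
  rw [h2]
  have h3 : 0 ≤ Real.sin (arg s * a) * Real.sin (arg s) := by
    rw [abs_le] at h1
    rcases le_total 0 (arg s) with h | h
    · apply mul_nonneg
      · apply Real.sin_nonneg_of_nonneg_of_le_pi
        · positivity
        · nlinarith
      · apply Real.sin_nonneg_of_nonneg_of_le_pi h
        linarith
    · apply mul_nonneg_of_nonpos_of_nonpos
      · apply Real.sin_nonpos_of_nonpos_of_neg_pi_le
        · exact mul_nonpos_of_nonpos_of_nonneg h ha.le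
        · nlinarith
      · apply Real.sin_nonpos_of_nonpos_of_neg_pi_le h
        linarith
  calc 0 ≤ (‖s‖ ^ a * ‖s‖) * (Real.sin (arg s * a) * Real.sin (arg s)) :=
        mul_nonneg (by positivity) h3
    _ = _ := by ring

lemma norm_le_add {a b : ℂ} (h1 : 0 ≤ a.re) (h2 : 0 ≤ b.re) (h3 : 0 ≤ a.im * b.im) :
    ‖a‖ ≤ ‖a + b‖ := by
  rw [← abs_of_nonneg (norm_nonneg a), ← abs_of_nonneg (norm_nonneg (a + b)), ← sq_le_sq,
    ← Complex.normSq_eq_norm_sq, ← Complex.normSq_eq_norm_sq, Complex.normSq_apply,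
    Complex.normSq_apply, Complex.add_re, Complex.add_im]
  nlinarith [mul_nonneg h1 h2, sq_nonneg b.re, sq_nonneg b.im]

/-- The building block `s ^ a + ρ s`. -/
noncomputable def UU (a ρ : ℝ) (s : ℂ) : ℂ := s ^ (a : ℂ) + (ρ : ℂ) * s

lemma UU_ge1 {a ρ : ℝ} (ha : 0 < a) (ha1 : a < 1) (hρ : 0 ≤ ρ) {s : ℂ} (hs : 0 ≤ s.re) :
    ‖s‖ ^ a ≤ ‖UU a ρ s‖ := by
  rw [← Complex.norm_cpow_real]
  apply norm_le_add (re_cpow_nonneg hs ha ha1)
  · simp
    positivity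
  · have := im_mul_im hs ha ha1
    simp only [Complex.im_ofReal_mul]
    nlinarith

lemma UU_ge2 {a ρ : ℝ} (ha : 0 < a) (ha1 : a < 1) (hρ : 0 ≤ ρ) {s : ℂ} (hs : 0 ≤ s.re) :
    ρ * ‖s‖ ≤ ‖UU a ρ s‖ := by
  have h : ρ * ‖s‖ = ‖(ρ : ℂ) * s‖ := by
    rw [norm_mul, Complex.norm_real, Real.norm_of_nonneg hρ]
  rw [h, UU, add_comm]
  apply norm_le_add
  · simp
    positivity
  · exact re_cpow_nonneg hs ha ha1
  · have := im_mul_im hs ha ha1
    simp only [Complex.im_ofReal_mul]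
    nlinarith

lemma UU_re_ge {a ρ : ℝ} (ha : 0 < a) (ha1 : a < 1) (hρ : 0 ≤ ρ) {s : ℂ} (hs : 0 ≤ s.re) :
    Real.cos (π / 2 * a) * ‖s‖ ^ a ≤ (UU a ρ s).re := by
  have h := re_cpow_ge hs ha ha1
  rw [UU, Complex.add_re, Complex.re_ofReal_mul]
  have : 0 ≤ ρ * s.re := mul_nonneg hρ hs
  linarith

lemma UU_le {a ρ : ℝ} (hρ : 0 ≤ ρ) (s : ℂ) : ‖UU a ρ s‖ ≤ ‖s‖ ^ a + ρ * ‖s‖ := by
  rw [UU]
  refine (norm_add_le _ _).trans ?_
  rw [Complex.norm_cpow_real, norm_mul, Complex.norm_real, Real.norm_of_nonneg hρ]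

lemma UU_inv_re {a ρ : ℝ} (ha : 0 < a) (ha1 : a < 1) (hρ : 0 ≤ ρ) {s : ℂ} (hs : 0 ≤ s.re) :
    0 ≤ (UU a ρ s)⁻¹.re := by
  rw [Complex.inv_re]
  apply div_nonneg _ (Complex.normSq_nonneg _)
  exact le_trans (mul_nonneg (cos_pos ha ha1).le (by positivity)) (UU_re_ge ha ha1 hρ hs)

lemma UU_inv_re_pos {a ρ : ℝ} (ha : 0 < a) (ha1 : a < 1) (hρ : 0 ≤ ρ) {s : ℂ} (hs : 0 ≤ s.re)
    (hs0 : s ≠ 0) : 0 < (UU a ρ s)⁻¹.re := by
  have hs' : 0 < ‖s‖ ^ a := Real.rpow_pos_of_pos (norm_pos_iff.2 hs0) _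
  have h1 : 0 < (UU a ρ s).re :=
    lt_of_lt_of_le (mul_pos (cos_pos ha ha1) hs') (UU_re_ge ha ha1 hρ hs)
  rw [Complex.inv_re]
  apply div_pos h1
  rw [Complex.normSq_pos]
  intro h
  rw [h] at h1
  simp at h1

/-- Inside the core the real part of the block is comparable with its modulus. -/
lemma UU_inv_core {a r : ℝ} (ha : 0 < a) (ha1 : a < 1) (hr : 0 < r) {s : ℂ} (hs : 0 ≤ s.re)
    (hs0 : s ≠ 0) (hsr : ‖s‖ ≤ r) :
    Real.cos (π / 2 * a) / 2 * ‖(UU a (r ^ (a - 1)) s)⁻¹‖ ≤ (UU a (r ^ (a - 1)) s)⁻¹.re := by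
  have hρ : 0 ≤ r ^ (a - 1) := by positivity
  have hn : 0 < ‖s‖ := norm_pos_iff.2 hs0
  have hs' : 0 < ‖s‖ ^ a := Real.rpow_pos_of_pos hn _
  have h1 := UU_re_ge ha ha1 hρ hs
  have h2 := UU_le (a := a) hρ s
  have h3 : r ^ (a - 1) * ‖s‖ ≤ ‖s‖ ^ a := by
    calc r ^ (a - 1) * ‖s‖ ≤ ‖s‖ ^ (a - 1) * ‖s‖ := by
          apply mul_le_mul_of_nonneg_right _ hn.le
          exact Real.rpow_le_rpow_of_nonpos hn hsr (by linarith)
      _ = ‖s‖ ^ a := by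
          rw [← Real.rpow_add_one hn.ne']
          congr 1
          ring
  set V := UU a (r ^ (a - 1)) s with hV
  have h4 : ‖V‖ ≤ 2 * ‖s‖ ^ a := by linarith
  have hc := cos_pos ha ha1
  have h5 : Real.cos (π / 2 * a) / 2 * ‖V‖ ≤ V.re := by nlinarith
  have hVpos : 0 < ‖V‖ := lt_of_lt_of_le hs' (UU_ge1 ha ha1 hρ hs)
  rw [Complex.inv_re, norm_inv, Complex.normSq_eq_norm_sq, le_div_iff₀ (by positivity)]
  calc Real.cos (π / 2 * a) / 2 * ‖V‖⁻¹ * ‖V‖ ^ 2 = Real.cos (π / 2 * a) / 2 * ‖V‖ := by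
        field_simp
    _ ≤ V.re := h5

lemma holder_aux {a : ℝ} (ha : 0 < a) (ha1 : a < 1) {s s' : ℂ} (hs : 0 ≤ s.re)
    (hs' : 0 ≤ s'.re) : ‖s ^ (a : ℂ) - s' ^ (a : ℂ)‖ ≤ 5 * ‖s - s'‖ ^ a := by
  rcases eq_or_ne s s' with rfl | hne
  · simp
    positivity
  have hd : 0 < ‖s - s'‖ := norm_pos_iff.2 (sub_ne_zero.2 hne)
  by_cases hcase : ‖s - s'‖ < ‖s‖ / 2
  · -- mean value inequality
    have hs0 : 0 < ‖s‖ := by linarith
    set K : Set ℂ := {w : ℂ | 0 ≤ w.re} ∩ ball s (‖s‖ / 2) with hK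
    have hconv : Convex ℝ K := by
      apply Convex.inter _ (convex_ball _ _)
      exact convex_halfSpace_re_ge 0
    have hsK : s ∈ K := ⟨hs, mem_ball_self (by linarith)⟩
    have hs'K : s' ∈ K := ⟨hs', by rw [mem_ball, dist_comm, dist_eq_norm]; exact hcase⟩
    have hnorm : ∀ w ∈ K, ‖s‖ / 2 ≤ ‖w‖ := by
      intro w hw
      have h1 := hw.2
      rw [mem_ball, dist_eq_norm] at h1
      have h2 := norm_sub_norm_le s w
      rw [norm_sub_rev] at h1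
      linarith
    have hslit : ∀ w ∈ K, w ∈ slitPlane := by
      intro w hw
      have h1 : 0 ≤ w.re := hw.1
      rw [Complex.mem_slitPlane_iff]
      rcases h1.lt_or_eq with h2 | h2
      · exact Or.inl h2
      · right
        intro h3
        have h4 : w = 0 := Complex.ext h2.symm h3
        have h5 := hnorm w hw
        rw [h4, norm_zero] at h5
        linarith
    have hder : ∀ w ∈ K, HasDerivWithinAt (fun w : ℂ => w ^ (a : ℂ))
        ((a : ℂ) * w ^ ((a : ℂ) - 1)) K w := by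
      intro w hw
      have h1 := (hasDerivAt_id w).cpow_const (c := (a : ℂ)) (hslit w hw)
      simpa using h1.hasDerivWithinAt
    have hbound : ∀ w ∈ K, ‖(a : ℂ) * w ^ ((a : ℂ) - 1)‖ ≤ (‖s‖ / 2) ^ (a - 1) := by
      intro w hw
      have e : ((a : ℂ) - 1) = ((a - 1 : ℝ) : ℂ) := by push_cast; ring
      rw [e, norm_mul, Complex.norm_cpow_real, Complex.norm_real, Real.norm_of_nonneg ha.le]
      have h1 : ‖w‖ ^ (a - 1) ≤ (‖s‖ / 2) ^ (a - 1) :=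
        Real.rpow_le_rpow_of_nonpos (by linarith) (hnorm w hw) (by linarith)
      have h2 : 0 ≤ ‖w‖ ^ (a - 1) := by positivity
      nlinarith
    have h1 := hconv.norm_image_sub_le_of_norm_hasDerivWithin_le hder hbound hs'K hsK
    refine h1.trans ?_
    have h2 : (‖s‖ / 2) ^ (a - 1) ≤ ‖s - s'‖ ^ (a - 1) :=
      Real.rpow_le_rpow_of_nonpos hd hcase.le (by linarith)
    calc (‖s‖ / 2) ^ (a - 1) * ‖s - s'‖ ≤ ‖s - s'‖ ^ (a - 1) * ‖s - s'‖ :=
          mul_le_mul_of_nonneg_right h2 hd.le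
      _ = ‖s - s'‖ ^ a := by
          rw [← Real.rpow_add_one hd.ne']
          congr 1
          ring
      _ ≤ 5 * ‖s - s'‖ ^ a := by
          have : 0 ≤ ‖s - s'‖ ^ a := by positivity
          linarith
  · push Not at hcase
    have h1 : ‖s‖ ≤ 2 * ‖s - s'‖ := by linarith
    have h2 : ‖s'‖ ≤ 3 * ‖s - s'‖ := by
      have := norm_sub_norm_le s' s
      rw [norm_sub_rev] at this
      linarith
    refine (norm_sub_le _ _).trans ?_
    rw [Complex.norm_cpow_real, Complex.norm_cpow_real]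
    have h3 : ‖s‖ ^ a ≤ 2 * ‖s - s'‖ ^ a := by
      calc ‖s‖ ^ a ≤ (2 * ‖s - s'‖) ^ a := Real.rpow_le_rpow (norm_nonneg _) h1 ha.le
        _ = 2 ^ a * ‖s - s'‖ ^ a := Real.mul_rpow (by norm_num) hd.le
        _ ≤ 2 * ‖s - s'‖ ^ a := by
          apply mul_le_mul_of_nonneg_right _ (by positivity)
          calc (2 : ℝ) ^ a ≤ 2 ^ (1 : ℝ) := Real.rpow_le_rpow_of_exponent_le (by norm_num) ha1.le
            _ = 2 := Real.rpow_one 2
    have h4 : ‖s'‖ ^ a ≤ 3 * ‖s - s'‖ ^ a := by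
      calc ‖s'‖ ^ a ≤ (3 * ‖s - s'‖) ^ a := Real.rpow_le_rpow (norm_nonneg _) h2 ha.le
        _ = 3 ^ a * ‖s - s'‖ ^ a := Real.mul_rpow (by norm_num) hd.le
        _ ≤ 3 * ‖s - s'‖ ^ a := by
          apply mul_le_mul_of_nonneg_right _ (by positivity)
          calc (3 : ℝ) ^ a ≤ 3 ^ (1 : ℝ) := Real.rpow_le_rpow_of_exponent_le (by norm_num) ha1.le
            _ = 3 := Real.rpow_one 3
    linarith

end Pool.Agent.Y285.PK
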