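import Pool.Agent.Y285.PK.Basic

/-!
# The field of the points and its lower bound
-/

namespace Pool.Agent.Y285.PK

open Complex Metric Set Filter Topology
open scoped Real

/-- Points `ζ i` on the unit circle with radii `r i`. -/
structure Dat (a : ℝ) (ι : Type) where
  ζ : ι → ℂ
  r : ι → ℝ
  S : ℝ
  B : ℝ
  hζ : ∀ i, ‖ζ i‖ = 1
  hr : ∀ i, 0 < r i
  ne1 : ∀ i, ζ i ≠ 1
  inj : ∀ i j, i ≠ j → ζ i ≠ ζ j
  hx : ∀ i, ‖ζ i - 1‖ ≤ 2 * (r i) ^ a
  hS : ∀ T : Finset ι, ∑ i ∈ T, (r i) ^ (1 - a) ≤ S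
  hB0 : 0 ≤ B
  hB : ∀ j (T : Finset ι), j ∉ T → ∑ i ∈ T, (r i) ^ (1 - a) / ‖ζ i - ζ j‖ ≤ B / ‖ζ j - 1‖

namespace Dat

variable {a : ℝ} {ι : Type} (D : Dat a ι)

lemma hS0 : 0 ≤ D.S := by simpa using D.hS ∅

lemma m_nonneg (i : ι) : 0 ≤ (D.r i) ^ (1 - a) := Real.rpow_nonneg (D.hr i).le _

lemma summable_m : Summable (fun i => (D.r i) ^ (1 - a)) :=
  summable_of_sum_le (fun i => D.m_nonneg i) D.hS

lemma tsum_m_le : ∑' i, (D.r i) ^ (1 - a) ≤ D.S := D.summable_m.tsum_le_of_sum_le D.hS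

/-- The coordinate at the point `ζ i`. -/
noncomputable def s (i : ι) (z : ℂ) : ℂ := 1 - (starRingEnd ℂ) (D.ζ i) * z

/-- The block at the point `ζ i`. -/
noncomputable def gg (i : ι) (z : ℂ) : ℂ := (UU a ((D.r i) ^ (a - 1)) (D.s i z))⁻¹

lemma norm_s (i : ι) (z : ℂ) : ‖D.s i z‖ = ‖z - D.ζ i‖ := by
  have h1 : (starRingEnd ℂ) (D.ζ i) * D.ζ i = 1 := by
    rw [mul_comm, Complex.mul_conj, Complex.normSq_eq_norm_sq, D.hζ i]
    simp
  have h2 : D.s i z = (starRingEnd ℂ) (D.ζ i) * (D.ζ i - z) := by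
    rw [s, mul_sub, h1]
  rw [h2, norm_mul, Complex.norm_conj, D.hζ i, one_mul, norm_sub_rev]

lemma re_s {z : ℂ} (hz : ‖z‖ ≤ 1) (i : ι) : 0 ≤ (D.s i z).re := by
  have h1 : ((starRingEnd ℂ) (D.ζ i) * z).re ≤ 1 := by
    refine (Complex.re_le_norm _).trans ?_
    rw [norm_mul, Complex.norm_conj, D.hζ i, one_mul]
    exact hz
  rw [s, Complex.sub_re, Complex.one_re]
  linarith

lemma rho_nonneg (i : ι) : 0 ≤ (D.r i) ^ (a - 1) := Real.rpow_nonneg (D.hr i).le _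

lemma rho_mul_m (i : ι) : (D.r i) ^ (a - 1) * (D.r i) ^ (1 - a) = 1 := by
  rw [← Real.rpow_add (D.hr i)]
  simp

lemma gg_mul_le (ha : 0 < a) (ha1 : a < 1) {z : ℂ} (hz : ‖z‖ ≤ 1) (i : ι)
    (hzi : z ≠ D.ζ i) : (D.r i) ^ (a - 1) * ‖D.gg i z‖ ≤ ‖z - D.ζ i‖⁻¹ := by
  have h1 := UU_ge2 ha ha1 (D.rho_nonneg i) (D.re_s hz i)
  rw [D.norm_s] at h1
  have hd : 0 < ‖z - D.ζ i‖ := norm_pos_iff.2 (sub_ne_zero.2 hzi)
  have hr : 0 < (D.r i) ^ (a - 1) := Real.rpow_pos_of_pos (D.hr i) _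
  have hU : 0 < ‖UU a ((D.r i) ^ (a - 1)) (D.s i z)‖ := lt_of_lt_of_le (mul_pos hr hd) h1
  rw [gg, norm_inv, ← div_eq_mul_inv, div_le_iff₀ hU, inv_mul_eq_div, le_div_iff₀ hd]
  exact h1

lemma gg_le (ha : 0 < a) (ha1 : a < 1) {z : ℂ} (hz : ‖z‖ ≤ 1) (i : ι)
    (hzi : z ≠ D.ζ i) : ‖D.gg i z‖ ≤ (D.r i) ^ (1 - a) / ‖z - D.ζ i‖ := by
  have h1 := D.gg_mul_le ha ha1 hz i hzi
  have h2 := mul_le_mul_of_nonneg_left h1 (D.m_nonneg i)
  rw [← mul_assoc, mul_comm ((D.r i) ^ (1 - a)), D.rho_mul_m, one_mul] at h2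
  rw [div_eq_mul_inv]
  exact h2

/-- Points of the closed disc outside the exceptional set. -/
def Good (z : ℂ) : Prop := ‖z‖ ≤ 1 ∧ z ≠ 1 ∧ ∀ i, z ≠ D.ζ i

lemma finite_near (ha : 0 < a) (ha1 : a < 1) {z : ℂ} (hz1 : z ≠ 1) :
    {i | ‖z - D.ζ i‖ < ‖1 - z‖ / 2}.Finite := by
  have ht : 0 < ‖1 - z‖ := norm_pos_iff.2 (sub_ne_zero.2 hz1.symm)
  set c : ℝ := (‖1 - z‖ / 4) ^ ((1 - a) / a) with hc
  have hc0 : 0 < c := by positivity
  have h1 : ∀ᶠ i in cofinite, (D.r i) ^ (1 - a) < c :=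
    D.summable_m.tendsto_cofinite_zero.eventually (gt_mem_nhds hc0)
  rw [eventually_cofinite] at h1
  apply h1.subset
  intro i hi
  simp only [mem_ofPred_eq] at hi
  show ¬ (D.r i) ^ (1 - a) < c
  rw [not_lt]
  have h2 : ‖1 - z‖ ≤ ‖D.ζ i - 1‖ + ‖z - D.ζ i‖ := by
    have : 1 - z = -((D.ζ i - 1) + (z - D.ζ i)) := by ring
    rw [this, norm_neg]
    exact norm_add_le _ _
  have h3 := D.hx i
  have h4 : ‖1 - z‖ / 4 ≤ (D.r i) ^ a := by linarith
  have h5 : (D.r i) ^ (1 - a) = ((D.r i) ^ a) ^ ((1 - a) / a) := by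
    rw [← Real.rpow_mul (D.hr i).le]
    congr 1
    field_simp
  rw [h5]
  apply Real.rpow_le_rpow (by positivity) h4
  apply div_nonneg _ ha.le
  linarith

lemma exists_delta (ha : 0 < a) (ha1 : a < 1) {z : ℂ} (hz : D.Good z) :
    ∃ δ > 0, ∀ i, δ ≤ ‖z - D.ζ i‖ := by
  have ht : 0 < ‖1 - z‖ := norm_pos_iff.2 (sub_ne_zero.2 hz.2.1.symm)
  have hfin := D.finite_near ha ha1 hz.2.1
  rcases Set.eq_empty_or_nonempty {i | ‖z - D.ζ i‖ < ‖1 - z‖ / 2} with he | hne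
  · refine ⟨‖1 - z‖ / 2, by positivity, fun i => ?_⟩
    by_contra h
    have : i ∈ {i | ‖z - D.ζ i‖ < ‖1 - z‖ / 2} := not_le.1 h
    rw [he] at this
    exact this
  · obtain ⟨j, hj, hjmin⟩ := Set.exists_min_image _ (fun i => ‖z - D.ζ i‖) hfin hne
    refine ⟨‖z - D.ζ j‖, norm_pos_iff.2 (sub_ne_zero.2 (hz.2.2 j)), fun i => ?_⟩
    by_cases hi : i ∈ {i | ‖z - D.ζ i‖ < ‖1 - z‖ / 2}
    · exact hjmin i hi
    · have h1 : ‖z - D.ζ j‖ < ‖1 - z‖ / 2 := hj
      have h2 : ‖1 - z‖ / 2 ≤ ‖z - D.ζ i‖ := not_lt.1 hi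
      linarith

lemma summable_gg (ha : 0 < a) (ha1 : a < 1) {z : ℂ} (hz : D.Good z) :
    Summable (fun i => ‖D.gg i z‖) := by
  obtain ⟨δ, hδ, hd⟩ := D.exists_delta ha ha1 hz
  refine Summable.of_nonneg_of_le (fun i => norm_nonneg _) (fun i => ?_)
    (D.summable_m.div_const δ)
  refine (D.gg_le ha ha1 hz.1 i (hz.2.2 i)).trans ?_
  exact div_le_div_of_nonneg_left (D.m_nonneg i) hδ (hd i)

/-- The absolute field. -/
noncomputable def G (z : ℂ) : ℝ := ‖1 - z‖⁻¹ + ∑' i, ‖D.gg i z‖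

/-- The field. -/
noncomputable def g (ε : ℝ) (z : ℂ) : ℂ := (1 - z)⁻¹ + (ε : ℂ) * ∑' i, D.gg i z

lemma G_ge (z : ℂ) : ‖1 - z‖⁻¹ ≤ D.G z := by
  unfold G
  have : 0 ≤ ∑' i, ‖D.gg i z‖ := tsum_nonneg fun i => norm_nonneg _
  linarith

lemma re_inv_ge {z : ℂ} (hz : ‖z‖ ≤ 1) (hz1 : z ≠ 1) : 1 / 2 ≤ ((1 - z)⁻¹).re := by
  have h0 : 0 < ‖1 - z‖ := norm_pos_iff.2 (sub_ne_zero.2 hz1.symm)
  have h1 : 0 < Complex.normSq (1 - z) := Complex.normSq_pos.2 (sub_ne_zero.2 hz1.symm)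
  rw [Complex.inv_re, le_div_iff₀ h1, Complex.normSq_apply]
  have h2 : z.re * z.re + z.im * z.im ≤ 1 := by
    rw [← Complex.normSq_apply, Complex.normSq_eq_norm_sq]
    exact pow_le_one₀ (norm_nonneg _) hz
  simp only [Complex.sub_re, Complex.one_re, Complex.sub_im, Complex.one_im]
  nlinarith

lemma numA {κ ε c B S T q Q L N : ℝ} (hκ0 : 0 < κ) (hκ1 : κ ≤ 1 / 2) (hε0 : 0 < ε)
    (hε1 : ε ≤ 1 / 128) (hc0 : 0 < c) (hcP2 : c * (5 + 4 * B + 2 * S) ≤ κ * ε / 8) (hS : 0 ≤ S)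
    (hεB : ε * B ≤ κ / 64) (hT0 : 0 < T) (hq4 : q ≤ 4 * T)
    (hQ : Q ≤ 4 * B * T) (hL1 : T - ε * q ≤ L) (hgL : L - ε * Q ≤ N) : c * (T + (q + Q)) ≤ N := by
  have h1 : c * (T + (q + Q)) ≤ (c * (5 + 4 * B)) * T := by
    calc c * (T + (q + Q)) ≤ c * (T + (4 * T + 4 * B * T)) :=
          mul_le_mul_of_nonneg_left (by linarith) hc0.le
      _ = _ := by ring
  have hκε : κ * ε ≤ 1 := by
    calc κ * ε ≤ 1 * 1 := mul_le_mul (by linarith) (by linarith) hε0.le (by norm_num)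
      _ = 1 := by ring
  have hcS : 0 ≤ c * S := mul_nonneg hc0.le hS
  have h2 : (c * (5 + 4 * B)) * T ≤ (1 / 2) * T := by
    apply mul_le_mul_of_nonneg_right _ hT0.le
    have e : c * (5 + 4 * B + 2 * S) = c * (5 + 4 * B) + 2 * (c * S) := by ring
    linarith
  have h3 : ε * q ≤ ε * (4 * T) := mul_le_mul_of_nonneg_left hq4 hε0.le
  have h3' : ε * Q ≤ ε * (4 * B * T) := mul_le_mul_of_nonneg_left hQ hε0.le
  have h4 : (1 / 2) * T ≤ (1 - 4 * ε - 4 * (ε * B)) * T := by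
    apply mul_le_mul_of_nonneg_right _ hT0.le
    linarith
  have e1 : (1 - 4 * ε - 4 * (ε * B)) * T = T - ε * (4 * T) - ε * (4 * B * T) := by ring
  linarith

lemma numB {κ ε c B S T q Q L N : ℝ} (hκ0 : 0 < κ) (hκ1 : κ ≤ 1 / 2) (hε0 : 0 < ε)
    (hε1 : ε ≤ 1 / 128) (hc0 : 0 < c) (hcP2 : c * (5 + 4 * B + 2 * S) ≤ κ * ε / 8) (hS : 0 ≤ S)
    (hB : 0 ≤ B) (hL0 : 0 ≤ L)
    (hεB : ε * B ≤ κ / 64) (hT0 : 0 < T) (hq0 : 0 ≤ q)
    (hQ : Q ≤ 4 * B * T) (hL1 : T - ε * q ≤ L) (hre : κ * (ε * q) ≤ L) (hgL : L - ε * Q ≤ N) :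
    c * (T + (q + Q)) ≤ N := by
  have hcS : 0 ≤ c * S := mul_nonneg hc0.le hS
  have hcB : 0 ≤ c * B := mul_nonneg hc0.le hB
  have hL2 : κ * T / 2 ≤ L := by
    have h1 : κ * (T - ε * q) ≤ κ * L := mul_le_mul_of_nonneg_left hL1 hκ0.le
    have h2 : κ * L ≤ 1 * L := mul_le_mul_of_nonneg_right (by linarith) hL0
    have e : κ * (T - ε * q) = κ * T - κ * (ε * q) := by ring
    linarith
  have h3' : ε * Q ≤ ε * (4 * B * T) := mul_le_mul_of_nonneg_left hQ hε0.le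
  have h4 : c * Q ≤ c * (4 * B * T) := mul_le_mul_of_nonneg_left hQ hc0.le
  have hκε : κ * ε ≤ κ * 1 := mul_le_mul_of_nonneg_left (by linarith) hκ0.le
  have e0 : c * (5 + 4 * B + 2 * S) = c * (1 + 4 * B) + 4 * c + 2 * (c * S) := by ring
  have h5 : c * (1 + 4 * B) * T ≤ κ / 8 * T := by
    apply mul_le_mul_of_nonneg_right _ hT0.le
    linarith
  have h6 : c * q ≤ κ * ε / 2 * q := by
    apply mul_le_mul_of_nonneg_right _ hq0
    have h7 : 0 ≤ κ * ε := by positivity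
    have h8 : c * (1 + 4 * B) = c + 4 * (c * B) := by ring
    linarith
  have h7 : 4 * (ε * B) * T ≤ κ / 16 * T := by
    apply mul_le_mul_of_nonneg_right _ hT0.le
    linarith
  have hκT : 0 ≤ κ * T := by positivity
  have e1 : ε * (4 * B * T) = 4 * (ε * B) * T := by ring
  have e2 : c * (T + (q + Q)) = c * T + c * q + c * Q := by ring
  have e3 : c * (4 * B * T) + c * T = c * (1 + 4 * B) * T := by ring
  have e4 : κ * ε / 2 * q = κ * (ε * q) / 2 := by ring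
  have e5 : κ / 8 * T = κ * T / 8 := by ring
  have e6 : κ / 16 * T = κ * T / 16 := by ring
  linarith

/-- The main lower bound. -/
theorem lower (ha : 0 < a) (ha1 : a < 1) : ∃ ε > 0, ε ≤ 1 ∧ ∃ c > 0, ∀ z, D.Good z →
    c * D.G z ≤ ‖D.g ε z‖ := by
  classical
  set κ : ℝ := Real.cos (π / 2 * a) / 2 with hκ
  have hκ0 : 0 < κ := by rw [hκ]; exact half_pos (cos_pos ha ha1)
  have hκ1 : κ ≤ 1 / 2 := by rw [hκ]; linarith [Real.cos_le_one (π / 2 * a)]
  have hS := D.hS0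
  have hB := D.hB0
  set P : ℝ := 1 + D.B + D.S with hP
  have hP1 : 1 ≤ P := by rw [hP]; linarith
  set ε : ℝ := κ / (64 * P) with hε
  have hε0 : 0 < ε := by rw [hε]; positivity
  have hεP : ε * P = κ / 64 := by rw [hε]; field_simp
  have hε1 : ε ≤ 1 / 128 := by
    have : ε * 1 ≤ ε * P := mul_le_mul_of_nonneg_left hP1 hε0.le
    linarith
  set c : ℝ := κ * ε / (40 * P) with hc
  have hc0 : 0 < c := by rw [hc]; positivity
  have hcP : c * P = κ * ε / 40 := by rw [hc]; field_simp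
  have hcP2 : c * (5 + 4 * D.B + 2 * D.S) ≤ κ * ε / 8 := by
    have : c * (5 + 4 * D.B + 2 * D.S) ≤ c * (5 * P) := by
      apply mul_le_mul_of_nonneg_left _ hc0.le
      rw [hP]; linarith
    linarith
  have hκε : κ * ε ≤ 1 / 2 := by
    calc κ * ε ≤ (1 / 2) * 1 := mul_le_mul hκ1 (by linarith) hε0.le (by norm_num)
      _ = 1 / 2 := by ring
  have hcB : 0 ≤ c * D.B := mul_nonneg hc0.le hB
  have hcS : 0 ≤ c * D.S := mul_nonneg hc0.le hS
  have hεB : ε * (1 + D.B) ≤ κ / 64 := by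
    have : ε * (1 + D.B) ≤ ε * P := by
      apply mul_le_mul_of_nonneg_left _ hε0.le
      rw [hP]; linarith
    linarith
  have hεS : ε * D.S ≤ κ / 64 := by
    have : ε * D.S ≤ ε * P := by
      apply mul_le_mul_of_nonneg_left _ hε0.le
      rw [hP]; linarith
    linarith
  refine ⟨ε, hε0, by linarith, c, hc0, fun z hz => ?_⟩
  have ht : 0 < ‖1 - z‖ := norm_pos_iff.2 (sub_ne_zero.2 hz.2.1.symm)
  set t : ℝ := ‖1 - z‖ with htdef
  set T : ℝ := t⁻¹ with hT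
  have hT0 : 0 < T := by rw [hT]; positivity
  have hTt : T * t = 1 := by rw [hT]; field_simp
  have hsum := D.summable_gg ha ha1 hz
  have hsumC : Summable (fun i => D.gg i z) := hsum.of_norm
  have hfin := D.finite_near ha ha1 hz.2.1
  have hA : ‖(1 - z)⁻¹‖ = T := by rw [norm_inv]
  rcases Set.eq_empty_or_nonempty {i | ‖z - D.ζ i‖ < ‖1 - z‖ / 2} with he | hne
  · -- all points are far away
    have hfar : ∀ i, t / 2 ≤ ‖z - D.ζ i‖ := by
      intro i
      by_contra h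
      have : i ∈ {i | ‖z - D.ζ i‖ < ‖1 - z‖ / 2} := not_le.1 h
      rw [he] at this
      exact this
    have hQ : ∑' i, ‖D.gg i z‖ ≤ 2 * T * D.S := by
      have h1 : ∀ i, ‖D.gg i z‖ ≤ 2 * T * (D.r i) ^ (1 - a) := by
        intro i
        refine (D.gg_le ha ha1 hz.1 i (hz.2.2 i)).trans ?_
        have h2 : (D.r i) ^ (1 - a) / ‖z - D.ζ i‖ ≤ (D.r i) ^ (1 - a) / (t / 2) :=
          div_le_div_of_nonneg_left (D.m_nonneg i) (by positivity) (hfar i)
        refine h2.trans (le_of_eq ?_)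
        rw [hT]
        field_simp
      calc ∑' i, ‖D.gg i z‖ ≤ ∑' i, 2 * T * (D.r i) ^ (1 - a) :=
            hsum.tsum_le_tsum h1 (D.summable_m.mul_left _)
        _ = 2 * T * ∑' i, (D.r i) ^ (1 - a) := tsum_mul_left
        _ ≤ 2 * T * D.S := mul_le_mul_of_nonneg_left D.tsum_m_le (by positivity)
    have hgl : T - ε * (2 * T * D.S) ≤ ‖D.g ε z‖ := by
      have h1 : ‖(ε : ℂ) * ∑' i, D.gg i z‖ ≤ ε * (2 * T * D.S) := by
        rw [norm_mul, Complex.norm_real, Real.norm_of_nonneg hε0.le]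
        exact mul_le_mul_of_nonneg_left ((norm_tsum_le_tsum_norm hsum).trans hQ) hε0.le
      have h2 := norm_sub_le_norm_add (1 - z)⁻¹ ((ε : ℂ) * ∑' i, D.gg i z)
      rw [hA] at h2
      unfold g
      linarith
    have hG : D.G z ≤ T + 2 * T * D.S := by
      unfold G
      linarith
    calc c * D.G z ≤ c * (T + 2 * T * D.S) := mul_le_mul_of_nonneg_left hG hc0.le
      _ = (c * (1 + 2 * D.S)) * T := by ring
      _ ≤ (1 / 2) * T := by
          apply mul_le_mul_of_nonneg_right _ hT0.le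
          have e : c * (5 + 4 * D.B + 2 * D.S) = c * (1 + 2 * D.S) + 4 * c + 4 * (c * D.B) := by ring
          linarith
      _ ≤ (1 - 2 * (ε * D.S)) * T := by
          apply mul_le_mul_of_nonneg_right _ hT0.le
          linarith
      _ = T - ε * (2 * T * D.S) := by ring
      _ ≤ _ := hgl
  · obtain ⟨j, hj, hjmin⟩ := Set.exists_min_image _ (fun i => ‖z - D.ζ i‖) hfin hne
    have hj' : ‖z - D.ζ j‖ < t / 2 := hj
    have hmin : ∀ i, ‖z - D.ζ j‖ ≤ ‖z - D.ζ i‖ := by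
      intro i
      by_cases hi : i ∈ {i | ‖z - D.ζ i‖ < ‖1 - z‖ / 2}
      · exact hjmin i hi
      · have h2 : ‖1 - z‖ / 2 ≤ ‖z - D.ζ i‖ := not_lt.1 hi
        linarith
    have hxj : t / 2 ≤ ‖D.ζ j - 1‖ := by
      have h2 : ‖1 - z‖ ≤ ‖D.ζ j - 1‖ + ‖z - D.ζ j‖ := by
        have : 1 - z = -((D.ζ j - 1) + (z - D.ζ j)) := by ring
        rw [this, norm_neg]
        exact norm_add_le _ _
      linarith
    have hxj0 : 0 < ‖D.ζ j - 1‖ := by linarith
    set q : ℝ := ‖D.gg j z‖ with hq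
    set Q : ℝ := ∑' i, (if i = j then 0 else ‖D.gg i z‖) with hQdef
    have hsum2 : Summable (fun i => if i = j then 0 else ‖D.gg i z‖) := by
      refine Summable.of_nonneg_of_le (fun i => ?_) (fun i => ?_) hsum
      · split_ifs
        · exact le_rfl
        · exact norm_nonneg _
      · split_ifs
        · exact norm_nonneg _
        · exact le_rfl
    have hQ : Q ≤ 4 * D.B * T := by
      apply hsum2.tsum_le_of_sum_le
      intro s
      have h1 : ∑ i ∈ s, (if i = j then 0 else ‖D.gg i z‖) = ∑ i ∈ s.erase j, ‖D.gg i z‖ := by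
        rw [← Finset.sum_filter_ne_zero]
        have h0 : ∑ i ∈ s.erase j, ‖D.gg i z‖ =
            ∑ i ∈ s.erase j, (if i = j then 0 else ‖D.gg i z‖) := by
          apply Finset.sum_congr rfl
          intro i hi
          rw [if_neg (Finset.ne_of_mem_erase hi)]
        rw [Finset.sum_filter_ne_zero, h0]
        by_cases hjs : j ∈ s
        · rw [← Finset.add_sum_erase s _ hjs]
          simp
        · rw [Finset.erase_eq_of_notMem hjs]
      rw [h1]
      have h2 : ∀ i ∈ s.erase j, ‖D.gg i z‖ ≤ 2 * ((D.r i) ^ (1 - a) / ‖D.ζ i - D.ζ j‖) := by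
        intro i hi
        have hij : i ≠ j := Finset.ne_of_mem_erase hi
        refine (D.gg_le ha ha1 hz.1 i (hz.2.2 i)).trans ?_
        have h3 : ‖D.ζ i - D.ζ j‖ ≤ 2 * ‖z - D.ζ i‖ := by
          have h4 : D.ζ i - D.ζ j = (z - D.ζ j) - (z - D.ζ i) := by ring
          rw [h4]
          refine (norm_sub_le _ _).trans ?_
          linarith [hmin i]
        have h5 : 0 < ‖D.ζ i - D.ζ j‖ := norm_pos_iff.2 (sub_ne_zero.2 (D.inj i j hij))
        have h6 : 0 < ‖z - D.ζ i‖ := norm_pos_iff.2 (sub_ne_zero.2 (hz.2.2 i))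
        rw [div_le_iff₀ h6]
        calc (D.r i) ^ (1 - a) = (D.r i) ^ (1 - a) / ‖D.ζ i - D.ζ j‖ * ‖D.ζ i - D.ζ j‖ := by
              field_simp
          _ ≤ (D.r i) ^ (1 - a) / ‖D.ζ i - D.ζ j‖ * (2 * ‖z - D.ζ i‖) := by
              apply mul_le_mul_of_nonneg_left h3
              exact div_nonneg (D.m_nonneg i) h5.le
          _ = _ := by ring
      calc ∑ i ∈ s.erase j, ‖D.gg i z‖ ≤
            ∑ i ∈ s.erase j, 2 * ((D.r i) ^ (1 - a) / ‖D.ζ i - D.ζ j‖) :=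
              Finset.sum_le_sum h2
        _ = 2 * ∑ i ∈ s.erase j, ((D.r i) ^ (1 - a) / ‖D.ζ i - D.ζ j‖) := by
              rw [Finset.mul_sum]
        _ ≤ 2 * (D.B / ‖D.ζ j - 1‖) :=
              mul_le_mul_of_nonneg_left (D.hB j _ (Finset.notMem_erase j s)) (by norm_num)
        _ ≤ 2 * (D.B / (t / 2)) := by
              apply mul_le_mul_of_nonneg_left _ (by norm_num)
              exact div_le_div_of_nonneg_left hB (by positivity) hxj
        _ = 4 * D.B * T := by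
              rw [hT]
              field_simp
              ring
    have hQ0 : 0 ≤ Q := tsum_nonneg fun i => by
      split_ifs
      · exact le_rfl
      · exact norm_nonneg _
    have hq0 : 0 ≤ q := norm_nonneg _
    have hGeq : D.G z = T + (q + Q) := by
      unfold G
      rw [hsum.tsum_eq_add_tsum_ite j]
    have hR : ∃ R : ℂ, ∑' i, D.gg i z = D.gg j z + R ∧ ‖R‖ ≤ Q := by
      refine ⟨∑' i, (if i = j then 0 else D.gg i z), hsumC.tsum_eq_add_tsum_ite j, ?_⟩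
      have h1 : (fun i => ‖(if i = j then 0 else D.gg i z)‖) =
          fun i => (if i = j then 0 else ‖D.gg i z‖) := by
        funext i
        split_ifs
        · simp
        · rfl
      have h2 : Summable (fun i => ‖(if i = j then 0 else D.gg i z)‖) := by
        rw [h1]; exact hsum2
      refine (norm_tsum_le_tsum_norm h2).trans (le_of_eq ?_)
      rw [h1]
    obtain ⟨R, hReq, hRle⟩ := hR
    have hg : D.g ε z = ((1 - z)⁻¹ + (ε : ℂ) * D.gg j z) + (ε : ℂ) * R := by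
      unfold g
      rw [hReq]
      ring
    have hεR : ‖(ε : ℂ) * R‖ ≤ ε * Q := by
      rw [norm_mul, Complex.norm_real, Real.norm_of_nonneg hε0.le]
      exact mul_le_mul_of_nonneg_left hRle hε0.le
    have hb : ‖(ε : ℂ) * D.gg j z‖ = ε * q := by
      rw [norm_mul, Complex.norm_real, Real.norm_of_nonneg hε0.le]
    set L : ℝ := ‖(1 - z)⁻¹ + (ε : ℂ) * D.gg j z‖ with hL
    have hgL : L - ε * Q ≤ ‖D.g ε z‖ := by
      have := norm_sub_le_norm_add ((1 - z)⁻¹ + (ε : ℂ) * D.gg j z) ((ε : ℂ) * R)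
      rw [hg]
      linarith
    have hL1 : T - ε * q ≤ L := by
      have := norm_sub_le_norm_add ((1 - z)⁻¹) ((ε : ℂ) * D.gg j z)
      rw [hA, hb] at this
      exact this
    have hεQ : ε * Q ≤ 4 * (ε * D.B) * T := by
      calc ε * Q ≤ ε * (4 * D.B * T) := mul_le_mul_of_nonneg_left hQ hε0.le
        _ = _ := by ring
    have hεB' : ε * D.B ≤ κ / 64 := by
      have e : ε * (1 + D.B) = ε + ε * D.B := by ring
      linarith
    rw [hGeq]
    by_cases hcase : D.r j < ‖z - D.ζ j‖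
    · -- outside the core
      have hq4 : q ≤ 4 * T := by
        have h1 := D.gg_le ha ha1 hz.1 j (hz.2.2 j)
        have hrj := D.hr j
        have h2 : (D.r j) ^ (1 - a) / ‖z - D.ζ j‖ ≤ (D.r j) ^ (1 - a) / D.r j :=
          div_le_div_of_nonneg_left (D.m_nonneg j) hrj hcase.le
        have hra : 0 < (D.r j) ^ a := Real.rpow_pos_of_pos hrj _
        have h3 : (D.r j) ^ (1 - a) / D.r j = ((D.r j) ^ a)⁻¹ := by
          rw [Real.rpow_sub hrj, Real.rpow_one]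
          field_simp
        have h4 : ((D.r j) ^ a)⁻¹ ≤ 4 * T := by
          rw [inv_le_iff_one_le_mul₀ hra]
          have h5 : t / 4 ≤ (D.r j) ^ a := by
            have := D.hx j
            linarith
          calc (1 : ℝ) = 4 * T * (t / 4) := by linarith
            _ ≤ 4 * T * (D.r j) ^ a := mul_le_mul_of_nonneg_left h5 (by positivity)
        rw [h3] at h2
        exact h1.trans (h2.trans h4)
      exact numA hκ0 hκ1 hε0 hε1 hc0 hcP2 hS hεB' hT0 hq4 hQ hL1 hgL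
    · -- inside the core
      push Not at hcase
      have hcore : κ * q ≤ (D.gg j z).re := by
        have := UU_inv_core ha ha1 (D.hr j) (D.re_s hz.1 j)
          (by
            intro h
            have h1 := D.norm_s j z
            rw [h, norm_zero] at h1
            exact hz.2.2 j (sub_eq_zero.1 (norm_eq_zero.1 h1.symm)))
          (by rw [D.norm_s]; exact hcase)
        exact this
      have hre : κ * (ε * q) ≤ L := by
        have h1 : ((1 - z)⁻¹ + (ε : ℂ) * D.gg j z).re ≤ L := Complex.re_le_norm _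
        rw [Complex.add_re, Complex.re_ofReal_mul] at h1
        have h2 := re_inv_ge hz.1 hz.2.1
        have h3 : ε * (κ * q) ≤ ε * (D.gg j z).re := mul_le_mul_of_nonneg_left hcore hε0.le
        have e : ε * (κ * q) = κ * (ε * q) := by ring
        linarith
      exact numB hκ0 hκ1 hε0 hε1 hc0 hcP2 hS hB (norm_nonneg _) hεB' hT0 hq0 hQ hL1 hre hgL

end Dat

end Pool.Agent.Y285.PK
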