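import Pool.Agent.Y285.PK.Holder

/-!
# The peak function
-/

namespace Pool.Agent.Y285.PK

open Complex Metric Set Filter Topology
open scoped Real

namespace Dat

variable {a : ℝ} {ι : Type} (D : Dat a ι)

/-- The exceptional set. -/
def E : Set ℂ := insert 1 (Set.range D.ζ)

lemma good_iff {z : ℂ} : D.Good z ↔ ‖z‖ ≤ 1 ∧ z ∉ D.E := by
  constructor
  · rintro ⟨h1, h2, h3⟩
    refine ⟨h1, ?_⟩
    rintro (h | ⟨i, hi⟩)
    · exact h2 h
    · exact h3 i hi.symm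
  · rintro ⟨h1, h2⟩
    exact ⟨h1, fun h => h2 (Or.inl h), fun i hi => h2 (Or.inr ⟨i, hi.symm⟩)⟩

lemma norm_E {z : ℂ} (hz : z ∈ D.E) : ‖z‖ = 1 := by
  rcases hz with rfl | ⟨i, rfl⟩
  · simp
  · exact D.hζ i

lemma good_of_lt {z : ℂ} (hz : ‖z‖ < 1) : D.Good z := by
  rw [D.good_iff]
  exact ⟨hz.le, fun h => hz.ne (D.norm_E h)⟩

open Classical in
/-- The reciprocal of the field. -/
noncomputable def h (ε : ℝ) (z : ℂ) : ℂ := if z ∈ D.E then 0 else (D.g ε z)⁻¹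

lemma h_good {ε : ℝ} {z : ℂ} (hz : D.Good z) : D.h ε z = (D.g ε z)⁻¹ :=
  if_neg (D.good_iff.1 hz).2

lemma h_E {ε : ℝ} {z : ℂ} (hz : z ∈ D.E) : D.h ε z = 0 := if_pos hz

/-- The parameters `ε`, `c` satisfy the lower bound. -/
def Low (ε c : ℝ) : Prop := 0 < ε ∧ ε ≤ 1 ∧ 0 < c ∧ ∀ z, D.Good z → c * D.G z ≤ ‖D.g ε z‖

lemma g_pos {ε c : ℝ} (hl : D.Low ε c) {z : ℂ} (hz : D.Good z) : 0 < ‖D.g ε z‖ :=
  lt_of_lt_of_le (mul_pos hl.2.2.1 (D.G_pos hz)) (hl.2.2.2 z hz)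

lemma norm_h_le {ε c : ℝ} (hl : D.Low ε c) {z : ℂ} (hz : D.Good z) :
    ‖D.h ε z‖ ≤ (c * D.G z)⁻¹ := by
  rw [D.h_good hz, norm_inv]
  exact inv_anti₀ (mul_pos hl.2.2.1 (D.G_pos hz)) (hl.2.2.2 z hz)

lemma h_sub_good (ha : 0 < a) (ha1 : a < 1) {ε c : ℝ} (hl : D.Low ε c) {z w : ℂ}
    (hz : D.Good z) (hw : D.Good w) :
    ‖D.h ε z - D.h ε w‖ ≤ (40 + 8 * D.S) / c ^ 2 * ‖z - w‖ ^ a := by
  have hgz := D.g_pos hl hz
  have hgw := D.g_pos hl hw
  have hc := hl.2.2.1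
  have hGz := D.G_pos hz
  have hGw := D.G_pos hw
  have h1 := D.g_sub_le ha ha1 hl.1.le hl.2.1 hz hw
  have hz2 := D.norm_h_le hl hz
  have hw2 := D.norm_h_le hl hw
  have e : D.h ε z - D.h ε w = -((D.g ε z - D.g ε w) * (D.h ε z * D.h ε w)) := by
    rw [D.h_good hz, D.h_good hw]
    have h3 : D.g ε z ≠ 0 := norm_pos_iff.1 hgz
    have h4 : D.g ε w ≠ 0 := norm_pos_iff.1 hgw
    field_simp
    ring
  rw [e, norm_neg, norm_mul, norm_mul]
  have hS := D.hS0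
  calc ‖D.g ε z - D.g ε w‖ * (‖D.h ε z‖ * ‖D.h ε w‖) ≤
        ((40 + 8 * D.S) * ‖z - w‖ ^ a * (D.G z * D.G w)) * ((c * D.G z)⁻¹ * (c * D.G w)⁻¹) := by
        apply mul_le_mul h1 _ (by positivity) (by positivity)
        exact mul_le_mul hz2 hw2 (norm_nonneg _) (by positivity)
    _ = _ := by field_simp

lemma norm_h_le_one {ε c : ℝ} (hl : D.Low ε c) {z : ℂ} (hz : D.Good z) :
    ‖D.h ε z‖ ≤ ‖z - 1‖ / c := by
  have hc := hl.2.2.1
  have hz0 : 0 < ‖1 - z‖ := norm_pos_iff.2 (sub_ne_zero.2 hz.2.1.symm)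
  refine (D.norm_h_le hl hz).trans ?_
  have h1 : c * ‖1 - z‖⁻¹ ≤ c * D.G z := mul_le_mul_of_nonneg_left (D.G_ge z) hc.le
  refine (inv_anti₀ (by positivity) h1).trans (le_of_eq ?_)
  rw [norm_sub_rev z 1]
  field_simp

lemma norm_h_le_j (ha : 0 < a) (ha1 : a < 1) {ε c : ℝ} (hl : D.Low ε c) {z : ℂ}
    (hz : D.Good z) (j : ι) :
    ‖D.h ε z‖ ≤ (‖z - D.ζ j‖ ^ a + (D.r j) ^ (a - 1) * ‖z - D.ζ j‖) / c := by
  have hc := hl.2.2.1
  refine (D.norm_h_le hl hz).trans ?_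
  have h0 : 0 ≤ ‖1 - z‖⁻¹ := by positivity
  have h1 : ‖D.gg j z‖ ≤ D.G z := by
    have := (D.summable_gg ha ha1 hz).le_tsum j fun i _ => norm_nonneg _
    unfold G
    linarith
  have hU := D.UU_ne ha ha1 hz.1 j (hz.2.2 j)
  have h2 : 0 < ‖D.gg j z‖ := by
    rw [gg, norm_inv]
    exact inv_pos.2 (norm_pos_iff.2 hU)
  have h3 : c * ‖D.gg j z‖ ≤ c * D.G z := mul_le_mul_of_nonneg_left h1 hc.le
  refine (inv_anti₀ (by positivity) h3).trans ?_
  have h4 := UU_le (a := a) (D.rho_nonneg j) (D.s j z)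
  rw [D.norm_s] at h4
  rw [gg, norm_inv, mul_inv, inv_inv, div_eq_inv_mul]
  exact mul_le_mul_of_nonneg_left h4 (by positivity)

lemma h_tendsto (ha : 0 < a) (ha1 : a < 1) {ε c : ℝ} (hl : D.Low ε c) {e : ℂ} (he : e ∈ D.E) :
    Tendsto (fun r : ℝ => D.h ε ((r : ℂ) * e)) (𝓝[<] 1) (𝓝 0) := by
  have hne := D.norm_E he
  have hev : ∀ᶠ r : ℝ in 𝓝[<] 1, 0 < r ∧ r < 1 := by
    have h1 : ∀ᶠ r : ℝ in 𝓝[<] 1, 0 < r := nhdsWithin_le_nhds (lt_mem_nhds one_pos)
    filter_upwards [h1, self_mem_nhdsWithin] with r hr1 hr2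
    exact ⟨hr1, hr2⟩
  have hnorm : ∀ r : ℝ, 0 < r → r < 1 → ‖(r : ℂ) * e‖ < 1 := by
    intro r hr hr1
    rw [norm_mul, Complex.norm_real, Real.norm_of_nonneg hr.le, hne, mul_one]
    exact hr1
  have hdist : ∀ r : ℝ, 0 < r → r < 1 → ‖(r : ℂ) * e - e‖ = 1 - r := by
    intro r hr hr1
    have : (r : ℂ) * e - e = -(((1 - r : ℝ) : ℂ) * e) := by push_cast; ring
    rw [this, norm_neg, norm_mul, Complex.norm_real, Real.norm_of_nonneg (by linarith), hne,
      mul_one]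
  rcases he with rfl | ⟨j, rfl⟩
  · have hb : Tendsto (fun r : ℝ => (1 - r) / c) (𝓝[<] 1) (𝓝 0) := by
      have : Continuous fun r : ℝ => (1 - r) / c := by fun_prop
      have h1 := (this.tendsto 1).mono_left (nhdsWithin_le_nhds (s := Set.Iio 1))
      simpa using h1
    refine squeeze_zero_norm' ?_ hb
    filter_upwards [hev] with r hr
    have h1 := D.norm_h_le_one hl (D.good_of_lt (hnorm r hr.1 hr.2))
    rw [hdist r hr.1 hr.2] at h1
    exact h1
  · have hb : Tendsto (fun r : ℝ => ((1 - r) ^ a + (D.r j) ^ (a - 1) * (1 - r)) / c)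
        (𝓝[<] 1) (𝓝 0) := by
      have : Continuous fun r : ℝ => ((1 - r) ^ a + (D.r j) ^ (a - 1) * (1 - r)) / c := by
        apply Continuous.div_const
        apply Continuous.add
        · exact (continuous_const.sub continuous_id).rpow_const fun _ => Or.inr ha.le
        · fun_prop
      have h1 := (this.tendsto 1).mono_left (nhdsWithin_le_nhds (s := Set.Iio 1))
      simpa [Real.zero_rpow ha.ne'] using h1
    refine squeeze_zero_norm' ?_ hb
    filter_upwards [hev] with r hr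
    have h1 := D.norm_h_le_j ha ha1 hl (D.good_of_lt (hnorm r hr.1 hr.2)) j
    rw [hdist r hr.1 hr.2] at h1
    exact h1

lemma h_sub_E (ha : 0 < a) (ha1 : a < 1) {ε c : ℝ} (hl : D.Low ε c) {z e : ℂ}
    (hz : D.Good z) (he : e ∈ D.E) :
    ‖D.h ε z - D.h ε e‖ ≤ (40 + 8 * D.S) / c ^ 2 * ‖z - e‖ ^ a := by
  rw [D.h_E he, sub_zero]
  have hne := D.norm_E he
  have h1 : Tendsto (fun r : ℝ => (40 + 8 * D.S) / c ^ 2 * ‖z - (r : ℂ) * e‖ ^ a +
      ‖D.h ε ((r : ℂ) * e)‖) (𝓝[<] 1) (𝓝 ((40 + 8 * D.S) / c ^ 2 * ‖z - e‖ ^ a + 0)) := by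
    apply Tendsto.add
    · have : Continuous fun r : ℝ => (40 + 8 * D.S) / c ^ 2 * ‖z - (r : ℂ) * e‖ ^ a := by
        apply Continuous.mul continuous_const
        apply Continuous.rpow_const _ fun _ => Or.inr ha.le
        fun_prop
      have h1 := (this.tendsto 1).mono_left (nhdsWithin_le_nhds (s := Set.Iio 1))
      simpa using h1
    · simpa using (D.h_tendsto ha ha1 hl he).norm
  rw [add_zero] at h1
  refine ge_of_tendsto h1 ?_
  have h2 : ∀ᶠ r : ℝ in 𝓝[<] 1, 0 < r := nhdsWithin_le_nhds (lt_mem_nhds one_pos)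
  filter_upwards [h2, self_mem_nhdsWithin] with r hr1 hr2
  have hr3 : r < 1 := hr2
  have hg : D.Good ((r : ℂ) * e) := by
    apply D.good_of_lt
    rw [norm_mul, Complex.norm_real, Real.norm_of_nonneg hr1.le, hne, mul_one]
    exact hr3
  have h3 := D.h_sub_good ha ha1 hl hz hg
  have h4 := norm_sub_norm_le (D.h ε z) (D.h ε ((r : ℂ) * e))
  linarith

lemma h_holder (ha : 0 < a) (ha1 : a < 1) {ε c : ℝ} (hl : D.Low ε c) {z w : ℂ}
    (hz : ‖z‖ ≤ 1) (hw : ‖w‖ ≤ 1) :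
    ‖D.h ε z - D.h ε w‖ ≤ (40 + 8 * D.S) / c ^ 2 * ‖z - w‖ ^ a := by
  by_cases h1 : z ∈ D.E
  · by_cases h2 : w ∈ D.E
    · rw [D.h_E h1, D.h_E h2, sub_self, norm_zero]
      have := D.hS0
      positivity
    · rw [norm_sub_rev, norm_sub_rev z w]
      exact D.h_sub_E ha ha1 hl (D.good_iff.2 ⟨hw, h2⟩) h1
  · by_cases h2 : w ∈ D.E
    · exact D.h_sub_E ha ha1 hl (D.good_iff.2 ⟨hz, h1⟩) h2
    · exact D.h_sub_good ha ha1 hl (D.good_iff.2 ⟨hz, h1⟩) (D.good_iff.2 ⟨hw, h2⟩)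

lemma re_s_pos {z : ℂ} (hz : ‖z‖ < 1) (i : ι) : 0 < (D.s i z).re := by
  have h1 : ((starRingEnd ℂ) (D.ζ i) * z).re < 1 := by
    refine lt_of_le_of_lt (Complex.re_le_norm _) ?_
    rw [norm_mul, Complex.norm_conj, D.hζ i, one_mul]
    exact hz
  rw [s, Complex.sub_re, Complex.one_re]
  linarith

lemma gg_diff (ha : 0 < a) (ha1 : a < 1) (i : ι) : DifferentiableOn ℂ (D.gg i) (ball 0 1) := by
  intro z hz
  rw [mem_ball_zero_iff] at hz
  apply DifferentiableAt.differentiableWithinAt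
  have hs : DifferentiableAt ℂ (D.s i) z := by
    unfold s
    fun_prop
  have hslit : D.s i z ∈ slitPlane := by
    rw [Complex.mem_slitPlane_iff]
    exact Or.inl (D.re_s_pos hz i)
  have h1 : DifferentiableAt ℂ (fun z => UU a ((D.r i) ^ (a - 1)) (D.s i z)) z := by
    unfold UU
    apply DifferentiableAt.add
    · exact hs.cpow_const hslit
    · exact hs.const_mul _
  unfold gg
  exact h1.inv (D.UU_ne ha ha1 hz.le i ((D.good_of_lt hz).2.2 i))

lemma tsum_diff (ha : 0 < a) (ha1 : a < 1) {z : ℂ} (hz : ‖z‖ < 1) :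
    DifferentiableAt ℂ (fun z => ∑' i, D.gg i z) z := by
  set ρ : ℝ := (1 + ‖z‖) / 2 with hρ
  have hρ1 : ρ < 1 := by rw [hρ]; linarith
  have hzρ : ‖z‖ < ρ := by rw [hρ]; linarith
  have h1 : DifferentiableOn ℂ (fun z => ∑' i, D.gg i z) (ball 0 ρ) := by
    apply differentiableOn_tsum_of_summable_norm (D.summable_m.div_const (1 - ρ))
    · intro i
      exact (D.gg_diff ha ha1 i).mono (ball_subset_ball hρ1.le)
    · exact isOpen_ball
    · intro i w hw
      rw [mem_ball_zero_iff] at hw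
      have hg := D.good_of_lt (hw.trans hρ1)
      refine (D.gg_le ha ha1 hg.1 i (hg.2.2 i)).trans ?_
      apply div_le_div_of_nonneg_left (D.m_nonneg i) (by linarith)
      have := norm_sub_norm_le (D.ζ i) w
      rw [D.hζ i, norm_sub_rev] at this
      linarith
  exact h1.differentiableAt (isOpen_ball.mem_nhds (by rw [mem_ball_zero_iff]; exact hzρ))

lemma re_g_gt [Nonempty ι] (ha : 0 < a) (ha1 : a < 1) {ε : ℝ} (hε : 0 < ε) {z : ℂ}
    (hz : D.Good z) : 1 / 2 < (D.g ε z).re := by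
  obtain ⟨i⟩ := ‹Nonempty ι›
  have h1 := re_inv_ge hz.1 hz.2.1
  have hs := (D.summable_gg ha ha1 hz).of_norm
  have h2 : 0 < (∑' i, D.gg i z).re := by
    rw [Complex.re_tsum hs]
    refine (Complex.hasSum_re hs.hasSum).summable.tsum_pos (fun i => ?_) i ?_
    · exact UU_inv_re ha ha1 (D.rho_nonneg i) (D.re_s hz.1 i)
    · apply UU_inv_re_pos ha ha1 (D.rho_nonneg i) (D.re_s hz.1 i)
      intro h
      have h1 := D.norm_s i z
      rw [h, norm_zero] at h1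
      exact hz.2.2 i (sub_eq_zero.1 (norm_eq_zero.1 h1.symm))
  rw [g, Complex.add_re, Complex.re_ofReal_mul]
  have := mul_pos hε h2
  linarith

lemma norm_one_sub_inv_lt {w : ℂ} (hw : 1 / 2 < w.re) : ‖1 - w⁻¹‖ < 1 := by
  have hw0 : w ≠ 0 := by
    intro h
    rw [h] at hw
    simp at hw
    linarith
  have h1 : 1 - w⁻¹ = (w - 1) / w := by field_simp
  rw [h1, norm_div, div_lt_one (norm_pos_iff.2 hw0)]
  rw [← abs_of_nonneg (norm_nonneg (w - 1)), ← abs_of_nonneg (norm_nonneg w), ← sq_lt_sq,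
    ← Complex.normSq_eq_norm_sq, ← Complex.normSq_eq_norm_sq, Complex.normSq_apply,
    Complex.normSq_apply, Complex.sub_re, Complex.sub_im, Complex.one_re, Complex.one_im]
  nlinarith

/-- The set `E` is a peak set. -/
theorem peak [Nonempty ι] (ha : 0 < a) (ha1 : a < 1) : IsClosed D.E ∧ ∃ f : ℂ → ℂ,
    DifferentiableOn ℂ f (ball 0 1) ∧ ContinuousOn f (closedBall 0 1) ∧
    (∃ C : ℝ, ∀ z ∈ closedBall (0 : ℂ) 1, ∀ w ∈ closedBall (0 : ℂ) 1,
      ‖f z - f w‖ ≤ C * ‖z - w‖ ^ a) ∧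
    (∀ z ∈ D.E, f z = 1) ∧ ∀ z ∈ closedBall (0 : ℂ) 1, z ∉ D.E → ‖f z‖ < 1 := by
  obtain ⟨ε, hε, hε1, c, hc, hlow⟩ := D.lower ha ha1
  have hl : D.Low ε c := ⟨hε, hε1, hc, hlow⟩
  set f : ℂ → ℂ := fun z => 1 - D.h ε z with hf
  have hhol : ∀ z ∈ closedBall (0 : ℂ) 1, ∀ w ∈ closedBall (0 : ℂ) 1,
      ‖f z - f w‖ ≤ (40 + 8 * D.S) / c ^ 2 * ‖z - w‖ ^ a := by
    intro z hz w hw
    rw [mem_closedBall_zero_iff] at hz hw
    have : f z - f w = -(D.h ε z - D.h ε w) := by simp only [hf]; ring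
    rw [this, norm_neg]
    exact D.h_holder ha ha1 hl hz hw
  have hcont : ContinuousOn f (closedBall 0 1) := by
    intro z hz
    rw [ContinuousWithinAt, tendsto_iff_norm_sub_tendsto_zero]
    have hb : Tendsto (fun w : ℂ => (40 + 8 * D.S) / c ^ 2 * ‖w - z‖ ^ a)
        (𝓝[closedBall 0 1] z) (𝓝 0) := by
      have : Continuous fun w : ℂ => (40 + 8 * D.S) / c ^ 2 * ‖w - z‖ ^ a := by
        apply Continuous.mul continuous_const
        apply Continuous.rpow_const _ fun _ => Or.inr ha.le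
        fun_prop
      have h1 := (this.tendsto z).mono_left (nhdsWithin_le_nhds (s := closedBall 0 1))
      simpa [Real.zero_rpow ha.ne'] using h1
    refine squeeze_zero' (Eventually.of_forall fun _ => norm_nonneg _) ?_ hb
    filter_upwards [self_mem_nhdsWithin] with w hw
    exact hhol w hw z hz
  have hE1 : ∀ z ∈ D.E, f z = 1 := by
    intro z hz
    simp only [hf]
    rw [D.h_E hz, sub_zero]
  have hlt : ∀ z ∈ closedBall (0 : ℂ) 1, z ∉ D.E → ‖f z‖ < 1 := by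
    intro z hz hzE
    rw [mem_closedBall_zero_iff] at hz
    have hg : D.Good z := D.good_iff.2 ⟨hz, hzE⟩
    simp only [hf]
    rw [D.h_good hg]
    exact norm_one_sub_inv_lt (D.re_g_gt ha ha1 hε hg)
  refine ⟨?_, f, ?_, hcont, ⟨_, hhol⟩, hE1, hlt⟩
  · have : D.E = closedBall 0 1 ∩ f ⁻¹' {1} := by
      ext z
      constructor
      · intro hz
        exact ⟨by rw [mem_closedBall_zero_iff]; exact (D.norm_E hz).le, hE1 z hz⟩
      · rintro ⟨hz, hz1⟩
        by_contra hzE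
        have h1 := hlt z hz hzE
        have h2 : f z = 1 := hz1
        rw [h2] at h1
        simp at h1
    rw [this]
    exact hcont.preimage_isClosed_of_isClosed isClosed_closedBall isClosed_singleton
  · have h1 : DifferentiableOn ℂ (fun z => 1 - (D.g ε z)⁻¹) (ball 0 1) := by
      intro z hz
      rw [mem_ball_zero_iff] at hz
      apply DifferentiableAt.differentiableWithinAt
      have hg := D.good_of_lt hz
      have hd : DifferentiableAt ℂ (D.g ε) z := by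
        unfold g
        apply DifferentiableAt.add
        · apply DifferentiableAt.inv
          · fun_prop
          · exact sub_ne_zero.2 hg.2.1.symm
        · exact (D.tsum_diff ha ha1 hz).const_mul _
      exact (differentiableAt_const _).sub (hd.inv (norm_pos_iff.1 (D.g_pos hl hg)))
    refine h1.congr fun z hz => ?_
    rw [mem_ball_zero_iff] at hz
    simp only [hf]
    rw [D.h_good (D.good_of_lt hz)]

end Dat

end Pool.Agent.Y285.PK
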