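import Pool.Agent.Y285.PK.Points
import Pool.Agent.Y285.PK.Peak

/-!
# The set `E` is not a zero set of the Gevrey class
-/

namespace Pool.Agent.Y285.PK

open Complex Metric Set Filter Topology MeasureTheory
open scoped Real Nat

lemma analytic_iter {F : ℂ → ℂ} (hF : DifferentiableOn ℂ F (ball 0 1)) (n : ℕ) :
    AnalyticOnNhd ℂ (iteratedDeriv n F) (ball 0 1) := by
  rw [iteratedDeriv_eq_iterate]
  exact (hF.analyticOnNhd isOpen_ball).iterated_deriv n

lemma flat {F : ℂ → ℂ} (hF : DifferentiableOn ℂ F (ball 0 1)) {M : ℕ → ℝ}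
    (hM : ∀ n, ∀ z ∈ ball (0 : ℂ) 1, ‖iteratedDeriv n F z‖ ≤ M n) {e : ℂ} (he : ‖e‖ = 1)
    (ht : ∀ n, Tendsto (iteratedDeriv n F) (𝓝[ball 0 1] e) (𝓝 0)) (m : ℕ) :
    ∀ n, ∀ z ∈ ball (0 : ℂ) 1, ‖iteratedDeriv n F z‖ ≤ M (n + m) * ‖z - e‖ ^ m / m ! := by
  have hM0 : ∀ n, 0 ≤ M n := fun n => (norm_nonneg _).trans (hM n 0 (mem_ball_self one_pos))
  induction m with
  | zero => intro n z hz; simpa using hM n z hz
  | succ m ih =>
    intro n z hz
    have hz1 : ‖z‖ < 1 := mem_ball_zero_iff.1 hz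
    have hpath : ∀ τ : ℝ, 0 < τ → τ ≤ 1 → e + (τ : ℂ) * (z - e) ∈ ball (0 : ℂ) 1 := by
      intro τ h0 h1
      rw [mem_ball_zero_iff]
      have e1 : e + (τ : ℂ) * (z - e) = ((1 - τ : ℝ) : ℂ) * e + (τ : ℂ) * z := by
        push_cast
        ring
      rw [e1]
      refine lt_of_le_of_lt (norm_add_le _ _) ?_
      rw [norm_mul, norm_mul, Complex.norm_real, Complex.norm_real,
        Real.norm_of_nonneg (by linarith), Real.norm_of_nonneg h0.le, he]
      nlinarith
    set K : ℝ := M (n + 1 + m) * ‖z - e‖ ^ (m + 1) / m ! with hK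
    have hK0 : 0 ≤ K := by
      have := hM0 (n + 1 + m)
      positivity
    set f : ℝ → ℂ := fun τ => iteratedDeriv n F (e + (τ : ℂ) * (z - e)) with hf
    set f' : ℝ → ℂ := fun τ => iteratedDeriv (n + 1) F (e + (τ : ℂ) * (z - e)) * (z - e) with hf'
    have hder : ∀ τ : ℝ, 0 < τ → τ ≤ 1 → HasDerivAt f (f' τ) τ := by
      intro τ h0 h1
      have h2 : HasDerivAt (iteratedDeriv n F) (iteratedDeriv (n + 1) F (e + (τ : ℂ) * (z - e)))
          (e + (τ : ℂ) * (z - e)) := by
        rw [iteratedDeriv_succ]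
        exact ((analytic_iter hF n) _ (hpath τ h0 h1)).differentiableAt.hasDerivAt
      have h3 : HasDerivAt (fun s : ℂ => e + s * (z - e)) (z - e) (τ : ℂ) := by
        simpa using ((hasDerivAt_id (τ : ℂ)).mul_const (z - e)).const_add e
      exact (h2.comp (τ : ℂ) h3).comp_ofReal
    have hkey : ∀ δ ∈ Ioo (0 : ℝ) 1, ‖iteratedDeriv n F z‖ ≤ ‖f δ‖ + K / (m + 1) := by
      intro δ hδ
      have hB : ∀ x : ℝ, HasDerivAt (fun τ : ℝ => ‖f δ‖ + K / (m + 1) * τ ^ (m + 1)) (K * x ^ m) x := by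
        intro x
        have h1 := ((hasDerivAt_pow (m + 1) x).const_mul (K / (m + 1))).const_add ‖f δ‖
        convert! h1 using 1
        push_cast
        field_simp
      have h1 := image_norm_le_of_norm_deriv_right_le_deriv_boundary (f := f) (f' := f')
        (a := δ) (b := 1) (B := fun τ : ℝ => ‖f δ‖ + K / (m + 1) * τ ^ (m + 1))
        (B' := fun x => K * x ^ m)
        (fun x hx => (hder x (lt_of_lt_of_le hδ.1 hx.1) hx.2).continuousAt.continuousWithinAt)
        (fun x hx => (hder x (lt_of_lt_of_le hδ.1 hx.1) hx.2.le).hasDerivWithinAt)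
        (by
          have : 0 ≤ K / (m + 1) * δ ^ (m + 1) := by
            have := hδ.1
            positivity
          simpa using this)
        hB
        (by
          intro x hx
          have hx0 : 0 < x := lt_of_lt_of_le hδ.1 hx.1
          have h2 := ih (n + 1) _ (hpath x hx0 hx.2.le)
          have h3 : ‖e + (x : ℂ) * (z - e) - e‖ = x * ‖z - e‖ := by
            rw [add_sub_cancel_left, norm_mul, Complex.norm_real, Real.norm_of_nonneg hx0.le]
          rw [h3] at h2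
          simp only [hf', norm_mul]
          calc ‖iteratedDeriv (n + 1) F (e + (x : ℂ) * (z - e))‖ * ‖z - e‖ ≤
                (M (n + 1 + m) * (x * ‖z - e‖) ^ m / m !) * ‖z - e‖ :=
                mul_le_mul_of_nonneg_right h2 (norm_nonneg _)
            _ = K * x ^ m := by rw [hK]; ring)
      have h2 := h1 (x := 1) ⟨hδ.2.le, le_rfl⟩
      simp only [hf] at h2
      simp only [one_pow, mul_one, Complex.ofReal_one, one_mul] at h2
      rw [add_sub_cancel] at h2
      exact h2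
    have hlim : Tendsto (fun δ : ℝ => ‖f δ‖ + K / (m + 1)) (𝓝[>] 0) (𝓝 (0 + K / (m + 1))) := by
      apply Tendsto.add_const
      have h1 : Tendsto (fun δ : ℝ => e + (δ : ℂ) * (z - e)) (𝓝[>] 0) (𝓝[ball 0 1] e) := by
        rw [tendsto_nhdsWithin_iff]
        constructor
        · have hc : Continuous fun δ : ℝ => e + (δ : ℂ) * (z - e) := by fun_prop
          have h2 := (hc.tendsto 0).mono_left (nhdsWithin_le_nhds (s := Set.Ioi 0))
          simpa using h2
        · have h2 : ∀ᶠ δ : ℝ in 𝓝[>] 0, δ < 1 := nhdsWithin_le_nhds (gt_mem_nhds one_pos)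
          filter_upwards [self_mem_nhdsWithin, h2] with δ h3 h4
          exact hpath δ h3 h4.le
      have h2 := ((ht n).comp h1).norm
      simpa using h2
    rw [zero_add] at hlim
    have hfin : ‖iteratedDeriv n F z‖ ≤ K / (m + 1) := by
      refine ge_of_tendsto hlim ?_
      have h2 : ∀ᶠ δ : ℝ in 𝓝[>] 0, δ < 1 := nhdsWithin_le_nhds (gt_mem_nhds one_pos)
      filter_upwards [self_mem_nhdsWithin, h2] with δ h3 h4
      exact hkey δ ⟨h3, h4⟩
    refine hfin.trans (le_of_eq ?_)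
    rw [hK, Nat.factorial_succ]
    have e2 : n + (m + 1) = n + 1 + m := by ring
    rw [e2]
    push_cast
    field_simp

/-- Exponential decay of a Gevrey function at a flat point. -/
lemma decay {a : ℝ} (ha : 0 < a) {F : ℂ → ℂ} (hF : DifferentiableOn ℂ F (ball 0 1))
    {C : ℝ} (hC1 : 1 ≤ C) (hC : ∀ n, ∀ z ∈ ball (0 : ℂ) 1,
      ‖iteratedDeriv n F z‖ ≤ C ^ (n + 1) * ((n ! : ℕ) : ℝ) ^ (1 + 1 / a)) {e : ℂ} (he : ‖e‖ = 1)
    (ht : ∀ n, Tendsto (iteratedDeriv n F) (𝓝[ball 0 1] e) (𝓝 0)) {z : ℂ}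
    (hz : z ∈ ball (0 : ℂ) 1) :
    ‖F z‖ ≤ C * Real.exp (1 - (Real.exp 1 * C * ‖z - e‖)⁻¹ ^ a) := by
  have hz1 : ‖z‖ < 1 := mem_ball_zero_iff.1 hz
  have hd : 0 < ‖z - e‖ := by
    rw [norm_pos_iff, sub_ne_zero]
    rintro rfl
    linarith
  set d := ‖z - e‖ with hdd
  have hE := Real.exp_pos 1
  have hC0 : 0 < C := by linarith
  set A : ℝ := (Real.exp 1 * C * d)⁻¹ with hA
  have hA0 : 0 < A := by rw [hA]; positivity
  set m : ℕ := ⌊A ^ a⌋₊ with hm
  have hAa : 0 ≤ A ^ a := by positivity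
  have hm1 : (m : ℝ) ≤ A ^ a := Nat.floor_le hAa
  have hm2 : A ^ a - 1 ≤ m := by
    have := Nat.lt_floor_add_one (A ^ a)
    linarith
  have h1 := flat hF hC he ht m 0 z hz
  rw [iteratedDeriv_zero, zero_add] at h1
  have hf0 : (0 : ℝ) < ((m ! : ℕ) : ℝ) := by exact_mod_cast Nat.factorial_pos m
  have h2 : C ^ (m + 1) * ((m ! : ℕ) : ℝ) ^ (1 + 1 / a) * d ^ m / ((m ! : ℕ) : ℝ) =
      C * ((C * d) ^ m * ((m ! : ℕ) : ℝ) ^ (1 / a)) := by
    rw [Real.rpow_add hf0, Real.rpow_one, mul_pow]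
    field_simp
    ring
  rw [h2] at h1
  have h3 : ((m ! : ℕ) : ℝ) ^ (1 / a) ≤ ((m : ℝ) ^ (1 / a)) ^ m := by
    have h4 : ((m ! : ℕ) : ℝ) ≤ (m : ℝ) ^ m := by exact_mod_cast Nat.factorial_le_pow m
    calc ((m ! : ℕ) : ℝ) ^ (1 / a) ≤ ((m : ℝ) ^ m) ^ (1 / a) :=
          Real.rpow_le_rpow hf0.le h4 (by positivity)
      _ = ((m : ℝ) ^ (1 / a)) ^ m := by
          rw [← Real.rpow_natCast, ← Real.rpow_natCast, ← Real.rpow_mul (by positivity),
            ← Real.rpow_mul (by positivity), mul_comm]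
  have h4 : (m : ℝ) ^ (1 / a) ≤ A := by
    calc (m : ℝ) ^ (1 / a) ≤ (A ^ a) ^ (1 / a) :=
          Real.rpow_le_rpow (by positivity) hm1 (by positivity)
      _ = A := by
          rw [← Real.rpow_mul hA0.le]
          have : a * (1 / a) = 1 := by field_simp
          rw [this, Real.rpow_one]
  have h5 : (C * d) * (m : ℝ) ^ (1 / a) ≤ (Real.exp 1)⁻¹ := by
    calc (C * d) * (m : ℝ) ^ (1 / a) ≤ (C * d) * A :=
          mul_le_mul_of_nonneg_left h4 (by positivity)
      _ = (Real.exp 1)⁻¹ := by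
          rw [hA]
          field_simp
  have h6 : (C * d) ^ m * ((m ! : ℕ) : ℝ) ^ (1 / a) ≤ Real.exp (1 - A ^ a) := by
    calc (C * d) ^ m * ((m ! : ℕ) : ℝ) ^ (1 / a) ≤ (C * d) ^ m * ((m : ℝ) ^ (1 / a)) ^ m :=
          mul_le_mul_of_nonneg_left h3 (by positivity)
      _ = ((C * d) * (m : ℝ) ^ (1 / a)) ^ m := by rw [← mul_pow]
      _ ≤ ((Real.exp 1)⁻¹) ^ m := pow_le_pow_left₀ (by positivity) h5 m
      _ = Real.exp (-(m : ℝ)) := by
          rw [← Real.exp_neg, ← Real.exp_nat_mul]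
          congr 1
          ring
      _ ≤ Real.exp (1 - A ^ a) := by
          apply Real.exp_le_exp.2
          linarith
  exact h1.trans (mul_le_mul_of_nonneg_left h6 hC0.le)

/-- Lower bound for the circle averages. -/
lemma jensen_lower {F : ℂ → ℂ} (hF : AnalyticOnNhd ℂ F (ball 0 1)) :
    ∃ K : ℝ, ∀ r ∈ Ico (1 / 2 : ℝ) 1, K ≤ Real.circleAverage (fun z => Real.log ‖F z‖) 0 r := by
  obtain ⟨k, hk⟩ : ∃ k : ℤ, k = ((analyticOrderAt F 0).map ((↑) : ℕ → ℤ)).untop₀ := ⟨_, rfl⟩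
  refine ⟨(k : ℝ) * Real.log (1 / 2) +
    Real.log ‖meromorphicTrailingCoeffAt F 0‖, fun r hr => ?_⟩
  have hr0 : 0 < r := by linarith [hr.1]
  have hsub : closedBall (0 : ℂ) |r| ⊆ ball 0 1 := by
    rw [abs_of_pos hr0]
    exact closedBall_subset_ball hr.2
  have han : AnalyticOnNhd ℂ F (closedBall 0 |r|) := hF.mono hsub
  have hnn := MeromorphicOn.AnalyticOnNhd.divisor_nonneg han
  rw [MeromorphicOn.circleAverage_log_norm hr0.ne' han.meromorphicOn]
  have h0 : (0 : ℂ) ∈ closedBall (0 : ℂ) |r| := mem_closedBall_self (abs_nonneg r)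
  have hd0 : MeromorphicOn.divisor F (closedBall 0 |r|) 0 = k := by
    rw [MeromorphicOn.AnalyticOnNhd.divisor_apply han h0, hk]
  have hk0 : 0 ≤ k := by
    rw [← hd0]
    exact hnn 0
  rw [hd0]
  have h1 : 0 ≤ ∑ᶠ u, (MeromorphicOn.divisor F (closedBall 0 |r|) u : ℝ) *
      Real.log (r * ‖(0 : ℂ) - u‖⁻¹) := by
    apply finsum_nonneg
    intro u
    by_cases hu : u ∈ closedBall (0 : ℂ) |r|
    · apply mul_nonneg
      · exact_mod_cast hnn u
      · rw [zero_sub, norm_neg]
        rcases eq_or_ne u 0 with rfl | hu0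
        · simp
        · apply Real.log_nonneg
          have hu1 : ‖u‖ ≤ r := by
            rw [mem_closedBall_zero_iff, abs_of_pos hr0] at hu
            exact hu
          have hu2 : 0 < ‖u‖ := norm_pos_iff.2 hu0
          rw [← div_eq_mul_inv, one_le_div hu2]
          exact hu1
    · rw [Function.locallyFinsuppWithin.apply_eq_zero_of_notMem _ hu]
      simp
  have h2 : Real.log (1 / 2) ≤ Real.log r := Real.log_le_log (by norm_num) hr.1
  have h3 : (k : ℝ) * Real.log (1 / 2) ≤ (k : ℝ) * Real.log r :=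
    mul_le_mul_of_nonneg_left h2 (by exact_mod_cast hk0)
  linarith

/-- Weights of the blocks. -/
noncomputable def ww (a : ℝ) (n : ℕ) : ℝ := (hh n / NN a n)⁻¹ ^ a

lemma ww_pos (a : ℝ) (n : ℕ) : 0 < ww a n := by
  have h1 := hh_pos n
  have hN : (0 : ℝ) < NN a n := by exact_mod_cast NN_pos a n
  unfold ww
  positivity

lemma ww_ge {a : ℝ} (ha : 0 < a) (n : ℕ) : 1 / ((n : ℝ) + 1) ≤ ww a n * hh n := by
  have h1 := hh_pos n
  have hN : (0 : ℝ) < NN a n := by exact_mod_cast NN_pos a n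
  have hb : (0 : ℝ) < (n : ℝ) + 1 := by positivity
  have h2 := le_NN a n
  have h3 : (hh n) ^ (-(1 / a)) * ((n : ℝ) + 1) ^ (-(1 / a)) ≤ (hh n / NN a n)⁻¹ := by
    rw [inv_div, le_div_iff₀ h1]
    refine le_trans (le_of_eq ?_) h2
    have h4 : (hh n) ^ (-(1 / a)) * hh n = (mu a n)⁻¹ := by
      rw [mu, ← Real.rpow_neg h1.le, ← Real.rpow_add_one h1.ne']
      congr 1
      field_simp
      ring
    rw [← h4]
    ring
  have h4 : ((hh n) ^ (-(1 / a)) * ((n : ℝ) + 1) ^ (-(1 / a))) ^ a ≤ ww a n :=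
    Real.rpow_le_rpow (by positivity) h3 ha.le
  have h5 : ((hh n) ^ (-(1 / a)) * ((n : ℝ) + 1) ^ (-(1 / a))) ^ a =
      (hh n)⁻¹ * ((n : ℝ) + 1)⁻¹ := by
    have e : -(1 / a) * a = -1 := by field_simp
    rw [Real.mul_rpow (by positivity) (by positivity), ← Real.rpow_mul h1.le,
      ← Real.rpow_mul hb.le, e, Real.rpow_neg_one, Real.rpow_neg_one]
  rw [h5] at h4
  calc 1 / ((n : ℝ) + 1) = ((hh n)⁻¹ * ((n : ℝ) + 1)⁻¹) * hh n := by field_simp
    _ ≤ _ := mul_le_mul_of_nonneg_right h4 h1.le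

/-- Nearest point of the block. -/
lemma nearest (a : ℝ) (n : ℕ) {t : ℝ} (h1 : hh n < t) (h2 : t ≤ 3 / 2 * hh n) :
    ∃ k : Fin (NN a n), |t - th a ⟨n, k⟩| ≤ hh n / (2 * NN a n) := by
  have h0 := hh_pos n
  have hN : (0 : ℝ) < NN a n := by exact_mod_cast NN_pos a n
  set x : ℝ := (t / hh n - 1) * (2 * NN a n) with hx
  have hx0 : 0 < x := by
    rw [hx]
    apply mul_pos _ (by positivity)
    rw [sub_pos, one_lt_div h0]
    exact h1
  have hxN : x ≤ NN a n := by
    have : t / hh n ≤ 3 / 2 := by rw [div_le_iff₀ h0]; exact h2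
    rw [hx]
    nlinarith
  have hc1 : 0 < ⌈x⌉₊ := Nat.ceil_pos.2 hx0
  have hc2 : ⌈x⌉₊ ≤ NN a n := Nat.ceil_le.2 hxN
  have hc3 := Nat.le_ceil x
  have hc4 := Nat.ceil_lt_add_one hx0.le
  refine ⟨⟨⌈x⌉₊ - 1, by omega⟩, ?_⟩
  have hk : ((⌈x⌉₊ - 1 : ℕ) : ℝ) = (⌈x⌉₊ : ℝ) - 1 := by
    rw [Nat.cast_sub (by omega)]
    simp
  have h3 : t - th a ⟨n, ⟨⌈x⌉₊ - 1, by omega⟩⟩ =
      hh n / (2 * NN a n) * (x - ((⌈x⌉₊ : ℝ) - 1)) := by
    simp only [th, hk]
    rw [hx]
    field_simp
    ring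
  rw [h3, abs_mul, abs_of_pos (by positivity : 0 < hh n / (2 * (NN a n : ℝ)))]
  have h4 : |x - ((⌈x⌉₊ : ℝ) - 1)| ≤ 1 := by
    rw [abs_le]
    constructor <;> linarith
  calc hh n / (2 * NN a n) * |x - ((⌈x⌉₊ : ℝ) - 1)| ≤ hh n / (2 * NN a n) * 1 :=
        mul_le_mul_of_nonneg_left h4 (by positivity)
    _ = _ := mul_one _

lemma exists_eta (a : ℝ) (N : ℕ) : ∃ η > 0, ∀ n < N, η ≤ hh n / (2 * NN a n) := by
  induction N with
  | zero => exact ⟨1, one_pos, fun n hn => absurd hn (Nat.not_lt_zero n)⟩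
  | succ N ih =>
    obtain ⟨η, hη, h⟩ := ih
    have h1 : 0 < hh N / (2 * NN a N) := by
      have h1 := hh_pos N
      have hN : (0 : ℝ) < NN a N := by exact_mod_cast NN_pos a N
      positivity
    refine ⟨min η (hh N / (2 * NN a N)), lt_min hη h1, fun n hn => ?_⟩
    rcases Nat.lt_succ_iff_lt_or_eq.1 hn with h2 | rfl
    · exact (min_le_left _ _).trans (h n h2)
    · exact min_le_right _ _

lemma mem_E {a : ℝ} (ha : 0 < a) (ha1 : a < 1) (i : Idx a) :
    ee (th a i) ∈ (theDat ha ha1).E := Or.inr ⟨i, rfl⟩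

/-- The majorant. -/
noncomputable def maj (a K c : ℝ) (N : ℕ) (t : ℝ) : ℝ :=
  K - c * ∑ n ∈ Finset.range N, (Ioc (hh n) (3 / 2 * hh n)).indicator (fun _ => ww a n) t

lemma block_sum (a : ℝ) {N n : ℕ} (hn : n < N) {t : ℝ} (ht : t ∈ Ioc (hh n) (3 / 2 * hh n)) :
    ∑ n ∈ Finset.range N, (Ioc (hh n) (3 / 2 * hh n)).indicator (fun _ => ww a n) t = ww a n := by
  rw [Finset.sum_eq_single_of_mem n (Finset.mem_range.2 hn)]
  · exact Set.indicator_of_mem ht _
  · intro m _ hmn
    apply Set.indicator_of_notMem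
    intro hm
    rcases lt_or_gt_of_ne hmn with h | h
    · have := hh_lt h
      linarith [ht.1, ht.2, hm.1, hm.2, hh_pos m]
    · have := hh_lt h
      linarith [ht.1, ht.2, hm.1, hm.2, hh_pos n]

lemma maj_integrable (a K c : ℝ) (N : ℕ) :
    IntervalIntegrable (maj a K c N) volume 0 (2 * π) := by
  apply IntervalIntegrable.sub intervalIntegrable_const
  apply IntervalIntegrable.const_mul
  have : (fun t => ∑ n ∈ Finset.range N,
      (Ioc (hh n) (3 / 2 * hh n)).indicator (fun _ => ww a n) t) =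
      ∑ n ∈ Finset.range N, fun t => (Ioc (hh n) (3 / 2 * hh n)).indicator (fun _ => ww a n) t := by
    funext t
    rw [Finset.sum_apply]
  rw [this]
  apply IntervalIntegrable.sum
  intro n _
  rw [intervalIntegrable_iff]
  exact (integrableOn_const (by
      rw [Set.uIoc_of_le (by positivity)]
      exact measure_Ioc_lt_top.ne)).indicator measurableSet_Ioc

lemma maj_integral (a K c : ℝ) (N : ℕ) : ∫ t in (0 : ℝ)..(2 * π), maj a K c N t =
    2 * π * K - c * ∑ n ∈ Finset.range N, ww a n * (hh n / 2) := by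
  have hpi := Real.pi_gt_three
  have h1 : ∀ n ∈ Finset.range N, IntervalIntegrable
      (fun t => (Ioc (hh n) (3 / 2 * hh n)).indicator (fun _ => ww a n) t) volume 0 (2 * π) := by
    intro n _
    rw [intervalIntegrable_iff]
    exact (integrableOn_const (by
      rw [Set.uIoc_of_le (by positivity)]
      exact measure_Ioc_lt_top.ne)).indicator measurableSet_Ioc
  unfold maj
  rw [intervalIntegral.integral_sub intervalIntegrable_const, intervalIntegral.integral_const,
    intervalIntegral.integral_const_mul, intervalIntegral.integral_finsetSum h1]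
  · rw [smul_eq_mul, sub_zero]
    congr 2
    apply Finset.sum_congr rfl
    intro n _
    have h0 := hh_pos n
    have h2 := hh_le n
    rw [intervalIntegral.integral_of_le (by positivity), MeasureTheory.integral_indicator
      measurableSet_Ioc, Measure.restrict_restrict measurableSet_Ioc]
    have h3 : Ioc (hh n) (3 / 2 * hh n) ∩ Ioc 0 (2 * π) = Ioc (hh n) (3 / 2 * hh n) := by
      apply Set.inter_eq_left.2
      intro t ht
      exact ⟨by linarith [ht.1], by linarith [ht.2]⟩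
    rw [h3, setIntegral_const, smul_eq_mul, Real.volume_real_Ioc_of_le (by linarith)]
    ring
  · apply IntervalIntegrable.const_mul
    have : (fun t => ∑ n ∈ Finset.range N,
        (Ioc (hh n) (3 / 2 * hh n)).indicator (fun _ => ww a n) t) =
        ∑ n ∈ Finset.range N,
          fun t => (Ioc (hh n) (3 / 2 * hh n)).indicator (fun _ => ww a n) t := by
      funext t
      rw [Finset.sum_apply]
    rw [this]
    exact IntervalIntegrable.sum _ h1

theorem not_gevrey {a : ℝ} (ha : 0 < a) (ha1 : a < 1) {F : ℂ → ℂ}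
    (hF : DifferentiableOn ℂ F (ball 0 1)) {C : ℝ} (hC : ∀ n : ℕ, ∀ z ∈ ball (0 : ℂ) 1,
      ‖iteratedDeriv n F z‖ ≤ C ^ (n + 1) * ((n ! : ℕ) : ℝ) ^ (1 + 1 / a))
    (ht : ∀ e ∈ (theDat ha ha1).E, ∀ n : ℕ,
      Tendsto (iteratedDeriv n F) (𝓝[ball 0 1] e) (𝓝 0)) :
    ∀ z ∈ ball (0 : ℂ) 1, F z = 0 := by
  have han : AnalyticOnNhd ℂ F (ball 0 1) := hF.analyticOnNhd isOpen_ball
  rcases han.eqOn_zero_or_eventually_ne_zero_of_preconnected
    (convex_ball (0 : ℂ) 1).isPreconnected with h0 | hne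
  · intro z hz
    exact h0 hz
  exfalso
  set C1 : ℝ := max |C| 1 with hC1
  have hC11 : 1 ≤ C1 := le_max_right _ _
  have hC10 : 0 < C1 := by linarith
  have hC' : ∀ n : ℕ, ∀ z ∈ ball (0 : ℂ) 1,
      ‖iteratedDeriv n F z‖ ≤ C1 ^ (n + 1) * ((n ! : ℕ) : ℝ) ^ (1 + 1 / a) := by
    intro n z hz
    refine (hC n z hz).trans ?_
    apply mul_le_mul_of_nonneg_right _ (by positivity)
    calc C ^ (n + 1) ≤ |C ^ (n + 1)| := le_abs_self _
      _ = |C| ^ (n + 1) := abs_pow C (n + 1)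
      _ ≤ C1 ^ (n + 1) := pow_le_pow_left₀ (abs_nonneg C) (le_max_left _ _) _
  set K1 : ℝ := Real.log C1 + 1 with hK1
  set c1 : ℝ := (Real.exp 1 * C1)⁻¹ ^ a with hc1
  have hE := Real.exp_pos 1
  have hc10 : 0 < c1 := by rw [hc1]; positivity
  have hlog : ∀ e ∈ (theDat ha ha1).E, ∀ z ∈ ball (0 : ℂ) 1, F z ≠ 0 →
      Real.log ‖F z‖ ≤ K1 - c1 * ‖z - e‖⁻¹ ^ a := by
    intro e he z hz hz0
    have h1 := decay ha hF hC11 hC' ((theDat ha ha1).norm_E he) (ht e he) hz
    have h2 := Real.log_le_log (norm_pos_iff.2 hz0) h1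
    rw [Real.log_mul hC10.ne' (Real.exp_pos _).ne', Real.log_exp] at h2
    have h3 : (Real.exp 1 * C1 * ‖z - e‖)⁻¹ ^ a = c1 * ‖z - e‖⁻¹ ^ a := by
      rw [mul_inv, Real.mul_rpow (by positivity) (by positivity)]
    rw [h3] at h2
    linarith
  obtain ⟨K, hK⟩ := jensen_lower han
  have hpi := Real.pi_pos
  have hmain : ∀ N : ℕ, K ≤ K1 - c1 / (4 * π) * ∑ n ∈ Finset.range N, 1 / ((n : ℝ) + 1) := by
    intro N
    obtain ⟨η, hη, hηN⟩ := exists_eta a N
    set r : ℝ := max (1 / 2) (1 - η) with hr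
    have hr1 : 1 / 2 ≤ r := le_max_left _ _
    have hr2 : r < 1 := max_lt (by norm_num) (by linarith)
    have hr3 : 1 - r ≤ η := by
      have := le_max_right (1 / 2) (1 - η)
      rw [← hr] at this
      linarith
    have hr0 : 0 < r := by linarith
    refine (hK r ⟨hr1, hr2⟩).trans ?_
    have hball : ∀ t : ℝ, circleMap 0 r t ∈ ball (0 : ℂ) 1 := by
      intro t
      rw [mem_ball_zero_iff, norm_circleMap_zero, abs_of_pos hr0]
      exact hr2
    have hcm : ∀ t : ℝ, ‖circleMap 0 r t - ee t‖ = 1 - r := by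
      intro t
      have h1 : circleMap 0 r t - ee t = -(((1 - r : ℝ) : ℂ) * ee t) := by
        simp only [circleMap, ee]
        rw [mul_comm I]
        push_cast
        ring
      rw [h1, norm_neg, norm_mul, norm_ee, mul_one, Complex.norm_real,
        Real.norm_of_nonneg (by linarith)]
    have hpt : ∀ t : ℝ, F (circleMap 0 r t) ≠ 0 →
        Real.log ‖F (circleMap 0 r t)‖ ≤ maj a K1 c1 N t := by
      intro t hne0
      by_cases hex : ∃ n, n < N ∧ t ∈ Ioc (hh n) (3 / 2 * hh n)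
      · obtain ⟨n, hn, htn⟩ := hex
        rw [maj, block_sum a hn htn]
        obtain ⟨k, hk⟩ := nearest a n htn.1 htn.2
        have h1 := hlog _ (mem_E ha ha1 ⟨n, k⟩) _ (hball t) hne0
        have h2 : ‖circleMap 0 r t - ee (th a ⟨n, k⟩)‖ ≤ hh n / NN a n := by
          have h3 : circleMap 0 r t - ee (th a ⟨n, k⟩) =
              (circleMap 0 r t - ee t) + (ee t - ee (th a ⟨n, k⟩)) := by ring
          rw [h3]
          refine (norm_add_le _ _).trans ?_
          rw [hcm t]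
          have h4 := chord_le t (th a ⟨n, k⟩)
          have h5 := hηN n hn
          have hN : (0 : ℝ) < NN a n := by exact_mod_cast NN_pos a n
          have h6 : hh n / (2 * NN a n) + hh n / (2 * NN a n) = hh n / NN a n := by
            field_simp
            ring
          linarith
        have h3 : 0 < ‖circleMap 0 r t - ee (th a ⟨n, k⟩)‖ := by
          rw [norm_pos_iff, sub_ne_zero]
          intro h
          have h4 := hball t
          rw [mem_ball_zero_iff, h, norm_ee] at h4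
          exact lt_irrefl _ h4
        have h4 : ww a n ≤ ‖circleMap 0 r t - ee (th a ⟨n, k⟩)‖⁻¹ ^ a := by
          apply Real.rpow_le_rpow
          · have h1 := hh_pos n
            positivity
          · exact inv_anti₀ h3 h2
          · exact ha.le
        have h5 := mul_le_mul_of_nonneg_left h4 hc10.le
        linarith
      · have h1 := hlog 1 (Or.inl rfl) _ (hball t) hne0
        have h2 : 0 ≤ c1 * ‖circleMap 0 r t - 1‖⁻¹ ^ a := by positivity
        have h3 : ∑ n ∈ Finset.range N,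
            (Ioc (hh n) (3 / 2 * hh n)).indicator (fun _ => ww a n) t = 0 := by
          apply Finset.sum_eq_zero
          intro n hn
          apply Set.indicator_of_notMem
          intro h
          exact hex ⟨n, Finset.mem_range.1 hn, h⟩
        rw [maj, h3]
        linarith
    have hae : ∀ᵐ t ∂(volume.restrict (Set.Icc 0 (2 * π))), F (circleMap 0 r t) ≠ 0 := by
      apply ae_restrict_le_codiscreteWithin measurableSet_Icc
      apply codiscreteWithin_mono (show Set.Icc 0 (2 * π) ⊆ (Set.univ : Set ℝ) from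
        Set.subset_univ _)
      have h1 : ∀ᶠ x in codiscreteWithin (sphere (0 : ℂ) |r|), F x ≠ 0 := by
        apply codiscreteWithin_mono _ hne
        intro x hx
        rw [mem_sphere_zero_iff_norm, abs_of_pos hr0] at hx
        rw [mem_ball_zero_iff, hx]
        exact hr2
      exact circleMap_preimage_codiscrete hr0.ne' h1
    have hint : IntervalIntegrable (fun t => Real.log ‖F (circleMap 0 r t)‖) volume 0 (2 * π) := by
      have hsub : sphere (0 : ℂ) |r| ⊆ ball 0 1 := by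
        intro x hx
        rw [mem_sphere_zero_iff_norm, abs_of_pos hr0] at hx
        rw [mem_ball_zero_iff, hx]
        exact hr2
      exact (han.mono hsub).meromorphicOn.circleIntegrable_log_norm
    have hle := intervalIntegral.integral_mono_ae_restrict (by positivity : (0 : ℝ) ≤ 2 * π)
      hint (maj_integrable a K1 c1 N) (hae.mono fun t h => hpt t h)
    rw [maj_integral] at hle
    have hsum : ∑ n ∈ Finset.range N, 1 / ((n : ℝ) + 1) ≤
        2 * ∑ n ∈ Finset.range N, ww a n * (hh n / 2) := by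
      rw [Finset.mul_sum]
      apply Finset.sum_le_sum
      intro n _
      have := ww_ge ha n
      linarith
    rw [Real.circleAverage_def, smul_eq_mul]
    calc (2 * π)⁻¹ * ∫ t in (0 : ℝ)..(2 * π), Real.log ‖F (circleMap 0 r t)‖ ≤
          (2 * π)⁻¹ * (2 * π * K1 - c1 * ∑ n ∈ Finset.range N, ww a n * (hh n / 2)) :=
          mul_le_mul_of_nonneg_left hle (by positivity)
      _ ≤ (2 * π)⁻¹ * (2 * π * K1 - c1 * ((1 / 2) * ∑ n ∈ Finset.range N, 1 / ((n : ℝ) + 1))) := by
          apply mul_le_mul_of_nonneg_left _ (by positivity)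
          have := mul_le_mul_of_nonneg_left hsum hc10.le
          linarith
      _ = _ := by
          field_simp
          ring
  have hdiv := Real.tendsto_sum_range_one_div_nat_succ_atTop
  obtain ⟨N, hN⟩ := (hdiv.eventually_gt_atTop ((K1 - K) / (c1 / (4 * π)))).exists
  have h1 := hmain N
  have h2 : 0 < c1 / (4 * π) := by positivity
  rw [div_lt_iff₀ h2] at hN
  linarith

end Pool.Agent.Y285.PK
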