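import Pool.Agent.Y285.PK.Field

/-!
# The Hölder estimate
-/

namespace Pool.Agent.Y285.PK

open Complex Metric Set Filter Topology
open scoped Real

namespace Dat

variable {a : ℝ} {ι : Type} (D : Dat a ι)

lemma UU_ne (ha : 0 < a) (ha1 : a < 1) {z : ℂ} (hz : ‖z‖ ≤ 1) (i : ι) (hzi : z ≠ D.ζ i) :
    UU a ((D.r i) ^ (a - 1)) (D.s i z) ≠ 0 := by
  have h1 := UU_ge1 ha ha1 (D.rho_nonneg i) (D.re_s hz i)
  rw [D.norm_s] at h1
  have hd : 0 < ‖z - D.ζ i‖ := norm_pos_iff.2 (sub_ne_zero.2 hzi)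
  have h2 : 0 < ‖z - D.ζ i‖ ^ a := Real.rpow_pos_of_pos hd _
  intro h
  rw [h, norm_zero] at h1
  linarith

lemma gg_sub_le (ha : 0 < a) (ha1 : a < 1) {z w : ℂ} (hz : D.Good z) (hw : D.Good w) (i : ι) :
    ‖D.gg i z - D.gg i w‖ ≤
      (5 * ‖z - w‖ ^ a + (D.r i) ^ (a - 1) * ‖z - w‖) * (‖D.gg i z‖ * ‖D.gg i w‖) := by
  have hU := D.UU_ne ha ha1 hz.1 i (hz.2.2 i)
  have hV := D.UU_ne ha ha1 hw.1 i (hw.2.2 i)
  have hs : ‖D.s i z - D.s i w‖ = ‖z - w‖ := by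
    have : D.s i z - D.s i w = -((starRingEnd ℂ) (D.ζ i) * (z - w)) := by
      simp only [s]
      ring
    rw [this, norm_neg, norm_mul, Complex.norm_conj, D.hζ i, one_mul]
  have h1 : ‖UU a ((D.r i) ^ (a - 1)) (D.s i w) - UU a ((D.r i) ^ (a - 1)) (D.s i z)‖ ≤
      5 * ‖z - w‖ ^ a + (D.r i) ^ (a - 1) * ‖z - w‖ := by
    have e : UU a ((D.r i) ^ (a - 1)) (D.s i w) - UU a ((D.r i) ^ (a - 1)) (D.s i z) =
        -(((D.s i z) ^ (a : ℂ) - (D.s i w) ^ (a : ℂ)) +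
          (((D.r i) ^ (a - 1) : ℝ) : ℂ) * (D.s i z - D.s i w)) := by
      simp only [UU]
      ring
    rw [e, norm_neg]
    refine (norm_add_le _ _).trans ?_
    have h2 := holder_aux ha ha1 (D.re_s hz.1 i) (D.re_s hw.1 i)
    rw [hs] at h2
    rw [norm_mul, Complex.norm_real, Real.norm_of_nonneg (D.rho_nonneg i), hs]
    linarith
  have e : D.gg i z - D.gg i w =
      (UU a ((D.r i) ^ (a - 1)) (D.s i w) - UU a ((D.r i) ^ (a - 1)) (D.s i z)) *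
        (D.gg i z * D.gg i w) := by
    simp only [gg]
    field_simp
  rw [e, norm_mul, norm_mul]
  exact mul_le_mul_of_nonneg_right h1 (by positivity)

lemma gg_le_G (ha : 0 < a) (ha1 : a < 1) {z : ℂ} (hz : D.Good z) : ∑' i, ‖D.gg i z‖ ≤ D.G z := by
  unfold G
  have : 0 ≤ ‖1 - z‖⁻¹ := by positivity
  linarith

lemma norm_le_two {z w : ℂ} (hz : ‖z‖ ≤ 1) (hw : ‖w‖ ≤ 1) : ‖z - w‖ ≤ 2 := by
  refine (norm_sub_le _ _).trans ?_
  linarith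

lemma le_two_rpow {a d : ℝ} (ha : 0 < a) (ha1 : a < 1) (hd : 0 < d) (hd2 : d ≤ 2) :
    d ≤ 2 * d ^ a := by
  have h1 : d = d ^ a * d ^ (1 - a) := by
    rw [← Real.rpow_add hd]
    simp
  have h2 : d ^ (1 - a) ≤ 2 := by
    calc d ^ (1 - a) ≤ 2 ^ (1 - a) := Real.rpow_le_rpow hd.le hd2 (by linarith)
      _ ≤ 2 ^ (1 : ℝ) := Real.rpow_le_rpow_of_exponent_le (by norm_num) (by linarith)
      _ = 2 := Real.rpow_one 2
  have h3 : 0 ≤ d ^ a := by positivity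
  calc d = d ^ a * d ^ (1 - a) := h1
    _ ≤ d ^ a * 2 := mul_le_mul_of_nonneg_left h2 h3
    _ = _ := by ring

lemma rho_mul_le {r d : ℝ} (hd : 0 < d) (hdr : d ≤ r) {a : ℝ} (ha1 : a < 1) :
    r ^ (a - 1) * d ≤ d ^ a := by
  calc r ^ (a - 1) * d ≤ d ^ (a - 1) * d := by
        apply mul_le_mul_of_nonneg_right _ hd.le
        exact Real.rpow_le_rpow_of_nonpos hd hdr (by linarith)
    _ = d ^ a := by
        rw [← Real.rpow_add_one hd.ne']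
        congr 1
        ring

/-- If `z` and `w` are far apart compared with the radius. -/
lemma near_case (ha : 0 < a) (ha1 : a < 1) {z w : ℂ} (hz : D.Good z) (hw : D.Good w)
    (hzw : z ≠ w) (i : ι) : (D.r i) ^ (a - 1) * ‖z - w‖ * (‖D.gg i z‖ * ‖D.gg i w‖) ≤
      2 * (‖D.gg i z‖ + ‖D.gg i w‖) := by
  have hd : 0 < ‖z - w‖ := norm_pos_iff.2 (sub_ne_zero.2 hzw)
  have hp := norm_nonneg (D.gg i z)
  have hq := norm_nonneg (D.gg i w)
  have h0 : ‖z - w‖ ≤ ‖z - D.ζ i‖ + ‖w - D.ζ i‖ := by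
    have : z - w = (z - D.ζ i) - (w - D.ζ i) := by ring
    rw [this]
    exact norm_sub_le _ _
  have hzi : 0 < ‖z - D.ζ i‖ := norm_pos_iff.2 (sub_ne_zero.2 (hz.2.2 i))
  have hwi : 0 < ‖w - D.ζ i‖ := norm_pos_iff.2 (sub_ne_zero.2 (hw.2.2 i))
  rcases le_total (‖z - w‖ / 2) ‖z - D.ζ i‖ with h | h
  · have h1 := D.gg_mul_le ha ha1 hz.1 i (hz.2.2 i)
    have h2 : (D.r i) ^ (a - 1) * ‖D.gg i z‖ * ‖z - w‖ ≤ 2 := by
      calc (D.r i) ^ (a - 1) * ‖D.gg i z‖ * ‖z - w‖ ≤ ‖z - D.ζ i‖⁻¹ * ‖z - w‖ :=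
            mul_le_mul_of_nonneg_right h1 hd.le
        _ ≤ ‖z - D.ζ i‖⁻¹ * (2 * ‖z - D.ζ i‖) := by
            apply mul_le_mul_of_nonneg_left _ (by positivity)
            linarith
        _ = 2 := by field_simp
    calc (D.r i) ^ (a - 1) * ‖z - w‖ * (‖D.gg i z‖ * ‖D.gg i w‖) =
          ((D.r i) ^ (a - 1) * ‖D.gg i z‖ * ‖z - w‖) * ‖D.gg i w‖ := by ring
      _ ≤ 2 * ‖D.gg i w‖ := mul_le_mul_of_nonneg_right h2 hq
      _ ≤ _ := by linarith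
  · have h' : ‖z - w‖ / 2 ≤ ‖w - D.ζ i‖ := by linarith
    have h1 := D.gg_mul_le ha ha1 hw.1 i (hw.2.2 i)
    have h2 : (D.r i) ^ (a - 1) * ‖D.gg i w‖ * ‖z - w‖ ≤ 2 := by
      calc (D.r i) ^ (a - 1) * ‖D.gg i w‖ * ‖z - w‖ ≤ ‖w - D.ζ i‖⁻¹ * ‖z - w‖ :=
            mul_le_mul_of_nonneg_right h1 hd.le
        _ ≤ ‖w - D.ζ i‖⁻¹ * (2 * ‖w - D.ζ i‖) := by
            apply mul_le_mul_of_nonneg_left _ (by positivity)
            linarith
        _ = 2 := by field_simp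
    calc (D.r i) ^ (a - 1) * ‖z - w‖ * (‖D.gg i z‖ * ‖D.gg i w‖) =
          ((D.r i) ^ (a - 1) * ‖D.gg i w‖ * ‖z - w‖) * ‖D.gg i z‖ := by ring
      _ ≤ 2 * ‖D.gg i z‖ := mul_le_mul_of_nonneg_right h2 hp
      _ ≤ _ := by linarith

/-- Points `ζ i` with small radius, when `z` and `w` are at distance at least `t / 2` from them. -/
lemma far_case (ha : 0 < a) (ha1 : a < 1) {z w : ℂ} (hz : D.Good z) (hw : D.Good w)
    (i : ι) {t : ℝ} (ht : 0 < t) (h1 : t / 2 ≤ ‖z - D.ζ i‖) (h2 : t / 2 ≤ ‖w - D.ζ i‖) :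
    (D.r i) ^ (a - 1) * ‖z - w‖ * (‖D.gg i z‖ * ‖D.gg i w‖) ≤
      (4 * ‖z - w‖ * (t⁻¹ * t⁻¹)) * (D.r i) ^ (1 - a) := by
  have hp := norm_nonneg (D.gg i z)
  have hq := norm_nonneg (D.gg i w)
  have h3 := D.gg_mul_le ha ha1 hz.1 i (hz.2.2 i)
  have h4 := D.gg_le ha ha1 hw.1 i (hw.2.2 i)
  have h5 : (D.r i) ^ (a - 1) * ‖D.gg i z‖ ≤ 2 * t⁻¹ := by
    refine h3.trans ?_
    calc ‖z - D.ζ i‖⁻¹ ≤ (t / 2)⁻¹ := inv_anti₀ (by positivity) h1
      _ = 2 * t⁻¹ := by field_simp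
  have h6 : ‖D.gg i w‖ ≤ (2 * t⁻¹) * (D.r i) ^ (1 - a) := by
    refine h4.trans ?_
    calc (D.r i) ^ (1 - a) / ‖w - D.ζ i‖ ≤ (D.r i) ^ (1 - a) / (t / 2) :=
          div_le_div_of_nonneg_left (D.m_nonneg i) (by positivity) h2
      _ = _ := by field_simp
  calc (D.r i) ^ (a - 1) * ‖z - w‖ * (‖D.gg i z‖ * ‖D.gg i w‖) =
        ‖z - w‖ * (((D.r i) ^ (a - 1) * ‖D.gg i z‖) * ‖D.gg i w‖) := by ring
    _ ≤ ‖z - w‖ * ((2 * t⁻¹) * ((2 * t⁻¹) * (D.r i) ^ (1 - a))) := by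
        apply mul_le_mul_of_nonneg_left _ (norm_nonneg _)
        exact mul_le_mul h5 h6 hq (by positivity)
    _ = _ := by ring

lemma tsum_mul_le (ha : 0 < a) (ha1 : a < 1) {z w : ℂ} (hz : D.Good z) (hw : D.Good w) :
    Summable (fun i => ‖D.gg i z‖ * ‖D.gg i w‖) ∧
      ∑' i, ‖D.gg i z‖ * ‖D.gg i w‖ ≤ D.G z * D.G w := by
  have hsz := D.summable_gg ha ha1 hz
  have hsw := D.summable_gg ha ha1 hw
  have h1 : ∀ i, ‖D.gg i z‖ * ‖D.gg i w‖ ≤ ‖D.gg i z‖ * ∑' i, ‖D.gg i w‖ := fun i =>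
    mul_le_mul_of_nonneg_left (hsw.le_tsum i fun j _ => norm_nonneg _) (norm_nonneg _)
  have h2 : Summable (fun i => ‖D.gg i z‖ * ‖D.gg i w‖) :=
    Summable.of_nonneg_of_le (fun i => by positivity) h1 (hsz.mul_right _)
  refine ⟨h2, ?_⟩
  calc ∑' i, ‖D.gg i z‖ * ‖D.gg i w‖ ≤ ∑' i, ‖D.gg i z‖ * ∑' i, ‖D.gg i w‖ :=
        h2.tsum_le_tsum h1 (hsz.mul_right _)
    _ = (∑' i, ‖D.gg i z‖) * ∑' i, ‖D.gg i w‖ := tsum_mul_right
    _ ≤ D.G z * D.G w := by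
        apply mul_le_mul (D.gg_le_G ha ha1 hz) (D.gg_le_G ha ha1 hw)
        · exact tsum_nonneg fun i => norm_nonneg _
        · exact le_trans (tsum_nonneg fun i => norm_nonneg _) (D.gg_le_G ha ha1 hz)

lemma G_pos {z : ℂ} (hz : D.Good z) : 0 < D.G z := by
  have h1 : 0 < ‖1 - z‖⁻¹ := inv_pos.2 (norm_pos_iff.2 (sub_ne_zero.2 hz.2.1.symm))
  exact lt_of_lt_of_le h1 (D.G_ge z)

lemma sum_sub_le (ha : 0 < a) (ha1 : a < 1) {z w : ℂ} (hz : D.Good z) (hw : D.Good w)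
    (hzw : z ≠ w) : ‖∑' i, D.gg i z - ∑' i, D.gg i w‖ ≤
      (38 + 8 * D.S) * ‖z - w‖ ^ a * (D.G z * D.G w) := by
  have hd : 0 < ‖z - w‖ := norm_pos_iff.2 (sub_ne_zero.2 hzw)
  have hd2 := norm_le_two hz.1 hw.1
  have hda : ‖z - w‖ ≤ 2 * ‖z - w‖ ^ a := le_two_rpow ha ha1 hd hd2
  set δ : ℝ := ‖z - w‖ ^ a with hδ
  have hδ0 : 0 < δ := Real.rpow_pos_of_pos hd _
  have hsz := D.summable_gg ha ha1 hz
  have hsw := D.summable_gg ha ha1 hw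
  have hGz := D.G_pos hz
  have hGw := D.G_pos hw
  obtain ⟨hsm, hsm2⟩ := D.tsum_mul_le ha ha1 hz hw
  have htz : 0 < ‖1 - z‖ := norm_pos_iff.2 (sub_ne_zero.2 hz.2.1.symm)
  have htw : 0 < ‖1 - w‖ := norm_pos_iff.2 (sub_ne_zero.2 hw.2.1.symm)
  have hz1 : 1 ≤ ‖1 - z‖ * D.G z := by
    calc (1 : ℝ) = ‖1 - z‖ * ‖1 - z‖⁻¹ := by field_simp
      _ ≤ _ := mul_le_mul_of_nonneg_left (D.G_ge z) htz.le
  have hw1 : 1 ≤ ‖1 - w‖ * D.G w := by
    calc (1 : ℝ) = ‖1 - w‖ * ‖1 - w‖⁻¹ := by field_simp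
      _ ≤ _ := mul_le_mul_of_nonneg_left (D.G_ge w) htw.le
  have hGG : 0 < D.G z * D.G w := mul_pos hGz hGw
  have key : ∀ Y : ι → ℝ, Summable Y →
      (∀ i, (D.r i) ^ (a - 1) * ‖z - w‖ * (‖D.gg i z‖ * ‖D.gg i w‖) ≤
        δ * (‖D.gg i z‖ * ‖D.gg i w‖) + Y i) →
      ‖∑' i, D.gg i z - ∑' i, D.gg i w‖ ≤ 6 * δ * (D.G z * D.G w) + ∑' i, Y i := by
    intro Y hY hle
    have h1 : ∀ i, ‖D.gg i z - D.gg i w‖ ≤ 6 * δ * (‖D.gg i z‖ * ‖D.gg i w‖) + Y i := by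
      intro i
      refine (D.gg_sub_le ha ha1 hz hw i).trans ?_
      have := hle i
      rw [add_mul]
      linarith
    have h2 : Summable (fun i => 6 * δ * (‖D.gg i z‖ * ‖D.gg i w‖) + Y i) :=
      (hsm.mul_left _).add hY
    have h3 : Summable (fun i => ‖D.gg i z - D.gg i w‖) :=
      Summable.of_nonneg_of_le (fun i => norm_nonneg _) h1 h2
    rw [← hsz.of_norm.tsum_sub hsw.of_norm]
    calc ‖∑' i, (D.gg i z - D.gg i w)‖ ≤ ∑' i, ‖D.gg i z - D.gg i w‖ :=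
          norm_tsum_le_tsum_norm h3
      _ ≤ ∑' i, (6 * δ * (‖D.gg i z‖ * ‖D.gg i w‖) + Y i) := h3.tsum_le_tsum h1 h2
      _ = 6 * δ * (∑' i, ‖D.gg i z‖ * ‖D.gg i w‖) + ∑' i, Y i := by
          rw [(hsm.mul_left _).tsum_add hY, tsum_mul_left]
      _ ≤ 6 * δ * (D.G z * D.G w) + ∑' i, Y i := by
          have := mul_le_mul_of_nonneg_left hsm2 (by positivity : (0 : ℝ) ≤ 6 * δ)
          linarith
  set t : ℝ := max ‖1 - z‖ ‖1 - w‖ with ht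
  have htz' : ‖1 - z‖ ≤ t := le_max_left _ _
  have htw' : ‖1 - w‖ ≤ t := le_max_right _ _
  have hS := D.hS0
  by_cases hcase : t ≤ 8 * δ
  · have h1 := key (fun i => 2 * (‖D.gg i z‖ + ‖D.gg i w‖)) ((hsz.add hsw).mul_left _) (by
      intro i
      have h2 := D.near_case ha ha1 hz hw hzw i
      have h3 : 0 ≤ δ * (‖D.gg i z‖ * ‖D.gg i w‖) := by positivity
      linarith)
    have h2 : ∑' i, 2 * (‖D.gg i z‖ + ‖D.gg i w‖) ≤ 32 * δ * (D.G z * D.G w) := by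
      rw [tsum_mul_left, hsz.tsum_add hsw]
      have h3 := D.gg_le_G ha ha1 hz
      have h4 := D.gg_le_G ha ha1 hw
      have h5 : D.G w ≤ t * (D.G z * D.G w) := by
        calc D.G w = 1 * D.G w := by ring
          _ ≤ (‖1 - z‖ * D.G z) * D.G w := mul_le_mul_of_nonneg_right hz1 hGw.le
          _ = ‖1 - z‖ * (D.G z * D.G w) := by ring
          _ ≤ _ := mul_le_mul_of_nonneg_right htz' hGG.le
      have h6 : D.G z ≤ t * (D.G z * D.G w) := by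
        calc D.G z = D.G z * 1 := by ring
          _ ≤ D.G z * (‖1 - w‖ * D.G w) := mul_le_mul_of_nonneg_left hw1 hGz.le
          _ = ‖1 - w‖ * (D.G z * D.G w) := by ring
          _ ≤ _ := mul_le_mul_of_nonneg_right htw' hGG.le
      have h7 : t * (D.G z * D.G w) ≤ 8 * δ * (D.G z * D.G w) :=
        mul_le_mul_of_nonneg_right hcase hGG.le
      linarith
    have h3 : 0 ≤ 8 * D.S * (δ * (D.G z * D.G w)) := by positivity
    calc ‖∑' i, D.gg i z - ∑' i, D.gg i w‖ ≤ 6 * δ * (D.G z * D.G w) +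
          ∑' i, 2 * (‖D.gg i z‖ + ‖D.gg i w‖) := h1
      _ ≤ (38 + 8 * D.S) * δ * (D.G z * D.G w) := by linarith
  · push Not at hcase
    have ht0 : 0 < t := lt_of_lt_of_le htz htz'
    have hdiff1 : ‖1 - z‖ ≤ ‖1 - w‖ + ‖z - w‖ := by
      have : 1 - z = (1 - w) - (z - w) := by ring
      rw [this]
      exact norm_sub_le _ _
    have hdiff2 : ‖1 - w‖ ≤ ‖1 - z‖ + ‖z - w‖ := by
      have : 1 - w = (1 - z) + (z - w) := by ring
      rw [this]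
      exact norm_add_le _ _
    have hmz : 3 * t / 4 ≤ ‖1 - z‖ := by
      rcases max_cases ‖1 - z‖ ‖1 - w‖ with ⟨h, _⟩ | ⟨h, _⟩
      · rw [ht, h]; linarith
      · rw [ht, h]
        have : t = ‖1 - w‖ := by rw [ht, h]
        linarith
    have hmw : 3 * t / 4 ≤ ‖1 - w‖ := by
      rcases max_cases ‖1 - z‖ ‖1 - w‖ with ⟨h, _⟩ | ⟨h, _⟩
      · rw [ht, h]
        have : t = ‖1 - z‖ := by rw [ht, h]
        linarith
      · rw [ht, h]; linarith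
    have h1 := key (fun i => (4 * ‖z - w‖ * (t⁻¹ * t⁻¹)) * (D.r i) ^ (1 - a))
      (D.summable_m.mul_left _) (by
        intro i
        by_cases hri : ‖z - w‖ ≤ D.r i
        · have h2 := rho_mul_le hd hri ha1
          have h3 : 0 ≤ (4 * ‖z - w‖ * (t⁻¹ * t⁻¹)) * (D.r i) ^ (1 - a) :=
            mul_nonneg (by positivity) (D.m_nonneg i)
          have h4 : (D.r i) ^ (a - 1) * ‖z - w‖ * (‖D.gg i z‖ * ‖D.gg i w‖) ≤
              δ * (‖D.gg i z‖ * ‖D.gg i w‖) := mul_le_mul_of_nonneg_right h2 (by positivity)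
          linarith
        · push Not at hri
          have hx : ‖D.ζ i - 1‖ < t / 4 := by
            have h2 := D.hx i
            have h3 : (D.r i) ^ a ≤ δ := Real.rpow_le_rpow (D.hr i).le hri.le ha.le
            linarith
          have h5 : t / 2 ≤ ‖z - D.ζ i‖ := by
            have : ‖1 - z‖ ≤ ‖D.ζ i - 1‖ + ‖z - D.ζ i‖ := by
              have : 1 - z = -((D.ζ i - 1) + (z - D.ζ i)) := by ring
              rw [this, norm_neg]
              exact norm_add_le _ _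
            linarith
          have h6 : t / 2 ≤ ‖w - D.ζ i‖ := by
            have : ‖1 - w‖ ≤ ‖D.ζ i - 1‖ + ‖w - D.ζ i‖ := by
              have : 1 - w = -((D.ζ i - 1) + (w - D.ζ i)) := by ring
              rw [this, norm_neg]
              exact norm_add_le _ _
            linarith
          have h7 := D.far_case ha ha1 hz hw i ht0 h5 h6
          have h8 : 0 ≤ δ * (‖D.gg i z‖ * ‖D.gg i w‖) := by positivity
          linarith)
    have h2 : ∑' i, (4 * ‖z - w‖ * (t⁻¹ * t⁻¹)) * (D.r i) ^ (1 - a) ≤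
        8 * D.S * (δ * (D.G z * D.G w)) := by
      rw [tsum_mul_left]
      have h3 : t⁻¹ * t⁻¹ ≤ D.G z * D.G w := by
        apply mul_le_mul
        · exact (inv_anti₀ htz htz').trans (D.G_ge z)
        · exact (inv_anti₀ htw htw').trans (D.G_ge w)
        · positivity
        · exact hGz.le
      have h4 : 4 * ‖z - w‖ * (t⁻¹ * t⁻¹) ≤ (8 * δ) * (D.G z * D.G w) := by
        apply mul_le_mul (by linarith) h3 (by positivity) (by positivity)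
      calc (4 * ‖z - w‖ * (t⁻¹ * t⁻¹)) * ∑' i, (D.r i) ^ (1 - a) ≤
            ((8 * δ) * (D.G z * D.G w)) * D.S := by
              apply mul_le_mul h4 D.tsum_m_le
              · exact tsum_nonneg fun i => D.m_nonneg i
              · positivity
        _ = _ := by ring
    have h3 : 0 ≤ δ * (D.G z * D.G w) := by positivity
    calc ‖∑' i, D.gg i z - ∑' i, D.gg i w‖ ≤ 6 * δ * (D.G z * D.G w) +
          ∑' i, (4 * ‖z - w‖ * (t⁻¹ * t⁻¹)) * (D.r i) ^ (1 - a) := h1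
      _ ≤ (38 + 8 * D.S) * δ * (D.G z * D.G w) := by linarith

lemma g_sub_le (ha : 0 < a) (ha1 : a < 1) {ε : ℝ} (hε : 0 ≤ ε) (hε1 : ε ≤ 1) {z w : ℂ}
    (hz : D.Good z) (hw : D.Good w) : ‖D.g ε z - D.g ε w‖ ≤
      (40 + 8 * D.S) * ‖z - w‖ ^ a * (D.G z * D.G w) := by
  have hGz := D.G_pos hz
  have hGw := D.G_pos hw
  have hGG : 0 < D.G z * D.G w := mul_pos hGz hGw
  have hS := D.hS0
  rcases eq_or_ne z w with rfl | hzw
  · rw [sub_self, norm_zero]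
    have : 0 ≤ ‖z - z‖ ^ a := by positivity
    positivity
  have hd : 0 < ‖z - w‖ := norm_pos_iff.2 (sub_ne_zero.2 hzw)
  have hda : ‖z - w‖ ≤ 2 * ‖z - w‖ ^ a := le_two_rpow ha ha1 hd (norm_le_two hz.1 hw.1)
  have hz0 : (1 - z) ≠ 0 := sub_ne_zero.2 hz.2.1.symm
  have hw0 : (1 - w) ≠ 0 := sub_ne_zero.2 hw.2.1.symm
  have htz : 0 < ‖1 - z‖ := norm_pos_iff.2 hz0
  have htw : 0 < ‖1 - w‖ := norm_pos_iff.2 hw0
  have e : D.g ε z - D.g ε w = (z - w) * ((1 - z)⁻¹ * (1 - w)⁻¹) +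
      (ε : ℂ) * (∑' i, D.gg i z - ∑' i, D.gg i w) := by
    unfold g
    have : (1 - z)⁻¹ - (1 - w)⁻¹ = (z - w) * ((1 - z)⁻¹ * (1 - w)⁻¹) := by
      field_simp
      ring
    rw [← this]
    ring
  rw [e]
  refine (norm_add_le _ _).trans ?_
  have h1 : ‖(z - w) * ((1 - z)⁻¹ * (1 - w)⁻¹)‖ ≤ 2 * ‖z - w‖ ^ a * (D.G z * D.G w) := by
    rw [norm_mul, norm_mul, norm_inv, norm_inv]
    apply mul_le_mul hda _ (by positivity) (by positivity)
    exact mul_le_mul (D.G_ge z) (D.G_ge w) (by positivity) hGz.le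
  have h2 : ‖(ε : ℂ) * (∑' i, D.gg i z - ∑' i, D.gg i w)‖ ≤
      (38 + 8 * D.S) * ‖z - w‖ ^ a * (D.G z * D.G w) := by
    rw [norm_mul, Complex.norm_real, Real.norm_of_nonneg hε]
    calc ε * ‖∑' i, D.gg i z - ∑' i, D.gg i w‖ ≤ 1 * ‖∑' i, D.gg i z - ∑' i, D.gg i w‖ :=
          mul_le_mul_of_nonneg_right hε1 (norm_nonneg _)
      _ = ‖∑' i, D.gg i z - ∑' i, D.gg i w‖ := one_mul _
      _ ≤ _ := D.sum_sub_le ha ha1 hz hw hzw
  calc _ ≤ 2 * ‖z - w‖ ^ a * (D.G z * D.G w) +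
        (38 + 8 * D.S) * ‖z - w‖ ^ a * (D.G z * D.G w) := add_le_add h1 h2
    _ = _ := by ring

end Dat

end Pool.Agent.Y285.PK
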