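import Pool.Agent.Y285.PK.Field

/-!
# The explicit points
-/

namespace Pool.Agent.Y285.PK

open Complex Metric Set Filter Topology
open scoped Real

/-- Point of the circle with angle `t`. -/
noncomputable def ee (t : ℝ) : ℂ := Complex.exp (I * t)

lemma norm_ee (t : ℝ) : ‖ee t‖ = 1 := Complex.norm_exp_I_mul_ofReal t

lemma ee_zero : ee 0 = 1 := by simp [ee]

lemma chord_eq (x y : ℝ) : ‖ee x - ee y‖ = 2 * |Real.sin ((x - y) / 2)| := by
  have h1 : ee x - ee y = ee y * (Complex.exp (I * ((x - y : ℝ) : ℂ)) - 1) := by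
    simp only [ee]
    rw [mul_sub, ← Complex.exp_add, mul_one]
    congr 2
    push_cast
    ring
  rw [h1, norm_mul, norm_ee, one_mul, Complex.norm_exp_I_mul_ofReal_sub_one, norm_mul]
  simp

lemma chord_le (x y : ℝ) : ‖ee x - ee y‖ ≤ |x - y| := by
  rw [chord_eq]
  have h := Real.abs_sin_le_abs (x := (x - y) / 2)
  rw [abs_div, abs_two] at h
  linarith

lemma chord_ge {x y : ℝ} (h : |x - y| ≤ 3) : |x - y| / 2 ≤ ‖ee x - ee y‖ := by
  rw [chord_eq]
  have hpi := Real.pi_gt_three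
  have hpi4 := Real.pi_le_four
  have h1 := Real.mul_le_sin (x := |x - y| / 2) (by positivity) (by linarith)
  have h2 : |Real.sin ((x - y) / 2)| = |Real.sin (|x - y| / 2)| := by
    rcases abs_cases (x - y) with ⟨h, _⟩ | ⟨h, _⟩
    · rw [h]
    · rw [h, neg_div, Real.sin_neg, abs_neg]
  rw [h2]
  have h3 : |x - y| / 4 ≤ 2 / π * (|x - y| / 2) := by
    have : 1 / 4 ≤ 1 / π := one_div_le_one_div_of_le (by linarith) hpi4
    have h4 : 0 ≤ |x - y| := abs_nonneg _
    calc |x - y| / 4 = |x - y| * (1 / 4) := by ring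
      _ ≤ |x - y| * (1 / π) := mul_le_mul_of_nonneg_left this h4
      _ = 2 / π * (|x - y| / 2) := by field_simp
  have h5 := le_abs_self (Real.sin (|x - y| / 2))
  linarith

/-- Scale of block `n`. -/
noncomputable def hh (n : ℕ) : ℝ := (1 / 2) ^ (n + 1)

lemma hh_pos (n : ℕ) : 0 < hh n := by unfold hh; positivity

lemma hh_le (n : ℕ) : hh n ≤ 1 / 2 := by
  unfold hh
  rw [pow_succ]
  have : (1 / 2 : ℝ) ^ n ≤ 1 := pow_le_one₀ (by norm_num) (by norm_num)
  linarith

lemma hh_lt {m n : ℕ} (h : n < m) : hh m ≤ hh n / 2 := by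
  unfold hh
  have h1 : (1 / 2 : ℝ) ^ (m + 1) ≤ (1 / 2) ^ (n + 2) :=
    pow_le_pow_of_le_one (by norm_num) (by norm_num) (by omega)
  rw [pow_succ (1 / 2 : ℝ) (n + 1)] at h1
  linarith

/-- Mass of a point of block `n`. -/
noncomputable def mu (a : ℝ) (n : ℕ) : ℝ := (hh n) ^ ((1 - a) / a)

lemma mu_pos (a : ℝ) (n : ℕ) : 0 < mu a n := Real.rpow_pos_of_pos (hh_pos n) _

lemma mu_le_one {a : ℝ} (ha : 0 < a) (ha1 : a < 1) (n : ℕ) : mu a n ≤ 1 := by
  apply Real.rpow_le_one (hh_pos n).le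
  · linarith [hh_le n]
  · apply div_nonneg _ ha.le
    linarith

/-- Number of points of block `n`. -/
noncomputable def NN (a : ℝ) (n : ℕ) : ℕ := ⌈(mu a n)⁻¹ * ((n : ℝ) + 1) ^ (-(1 / a))⌉₊

lemma bpow_pos (a : ℝ) (n : ℕ) : 0 < ((n : ℝ) + 1) ^ (-(1 / a)) := by positivity

lemma bpow_le {a : ℝ} (ha : 0 < a) (n : ℕ) : ((n : ℝ) + 1) ^ (-(1 / a)) ≤ 1 := by
  apply Real.rpow_le_one_of_one_le_of_nonpos
  · have : (0 : ℝ) ≤ n := Nat.cast_nonneg n
    linarith
  · have : 0 < 1 / a := by positivity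
    linarith

lemma bpow_mul_le {a : ℝ} (ha : 0 < a) (ha1 : a < 1) (n : ℕ) :
    ((n : ℝ) + 1) ^ (-(1 / a)) * ((n : ℝ) + 1) ≤ 1 := by
  have hb : (0 : ℝ) < (n : ℝ) + 1 := by positivity
  rw [← Real.rpow_add_one hb.ne']
  apply Real.rpow_le_one_of_one_le_of_nonpos
  · have : (0 : ℝ) ≤ n := Nat.cast_nonneg n
    linarith
  · have : 1 < 1 / a := by rw [lt_div_iff₀ ha]; linarith
    linarith

lemma NN_pos (a : ℝ) (n : ℕ) : 0 < NN a n := by
  unfold NN
  rw [Nat.ceil_pos]
  exact mul_pos (inv_pos.2 (mu_pos a n)) (bpow_pos a n)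

lemma le_NN (a : ℝ) (n : ℕ) : (mu a n)⁻¹ * ((n : ℝ) + 1) ^ (-(1 / a)) ≤ NN a n := Nat.le_ceil _

lemma NN_le (a : ℝ) (n : ℕ) : (NN a n : ℝ) ≤ (mu a n)⁻¹ * ((n : ℝ) + 1) ^ (-(1 / a)) + 1 :=
  (Nat.ceil_lt_add_one (mul_pos (inv_pos.2 (mu_pos a n)) (bpow_pos a n)).le).le

lemma NN_mul_mu_le (a : ℝ) (n : ℕ) :
    (NN a n : ℝ) * mu a n ≤ ((n : ℝ) + 1) ^ (-(1 / a)) + mu a n := by
  have h := mul_le_mul_of_nonneg_right (NN_le a n) (mu_pos a n).le
  have h2 : ((mu a n)⁻¹ * ((n : ℝ) + 1) ^ (-(1 / a)) + 1) * mu a n =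
      ((n : ℝ) + 1) ^ (-(1 / a)) + mu a n := by
    have := (mu_pos a n).ne'
    field_simp
  linarith

lemma log_mu (a : ℝ) (n : ℕ) : Real.log (mu a n) = -((1 - a) / a * ((n + 1) * Real.log 2)) := by
  rw [mu, Real.log_rpow (hh_pos n), hh, Real.log_pow]
  rw [one_div, Real.log_inv]
  push_cast
  ring

lemma log_NN_le {a : ℝ} (ha : 0 < a) (ha1 : a < 1) (n : ℕ) :
    Real.log (NN a n) ≤ 1 + ((n : ℝ) + 1) * ((1 - a) / a) := by
  have hN : (0 : ℝ) < NN a n := by exact_mod_cast NN_pos a n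
  have hm := mu_pos a n
  have h1 : (NN a n : ℝ) ≤ 2 * (mu a n)⁻¹ := by
    have h2 := NN_le a n
    have h3 := bpow_le ha n
    have h4 : 1 ≤ (mu a n)⁻¹ := (one_le_inv₀ hm).2 (mu_le_one ha ha1 n)
    have h5 : (mu a n)⁻¹ * ((n : ℝ) + 1) ^ (-(1 / a)) ≤ (mu a n)⁻¹ * 1 :=
      mul_le_mul_of_nonneg_left h3 (by positivity)
    linarith
  have h2 := Real.log_le_log hN h1
  rw [Real.log_mul (by norm_num) (inv_pos.2 hm).ne', Real.log_inv, log_mu] at h2
  have hl2 : Real.log 2 ≤ 1 := by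
    have := Real.log_two_lt_d9
    linarith
  have hg : 0 ≤ (1 - a) / a := div_nonneg (by linarith) ha.le
  have hl0 : 0 ≤ Real.log 2 := Real.log_nonneg (by norm_num)
  have h3 : (1 - a) / a * (((n : ℝ) + 1) * Real.log 2) ≤ (1 - a) / a * (((n : ℝ) + 1) * 1) := by
    apply mul_le_mul_of_nonneg_left _ hg
    apply mul_le_mul_of_nonneg_left hl2
    positivity
  linarith

lemma mu_mul_le {a : ℝ} (ha : 0 < a) (ha1 : a < 1) (n : ℕ) :
    mu a n * (2 + ((n : ℝ) + 1) * ((1 - a) / a)) ≤ 2 := by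
  have hm := mu_pos a n
  set y : ℝ := (1 - a) / a * ((n + 1) * Real.log 2) with hy
  have h1 : mu a n = Real.exp (-y) := by
    rw [← Real.exp_log hm, log_mu]
  have hg : 0 ≤ ((n : ℝ) + 1) * ((1 - a) / a) :=
    mul_nonneg (by positivity) (div_nonneg (by linarith) ha.le)
  have hl2 : 1 / 2 ≤ Real.log 2 := by
    have := Real.log_two_gt_d9
    linarith
  have h2 : 2 + ((n : ℝ) + 1) * ((1 - a) / a) ≤ 2 * (y + 1) := by
    have : y = ((n : ℝ) + 1) * ((1 - a) / a) * Real.log 2 := by rw [hy]; ring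
    rw [this]
    nlinarith
  have h3 := Real.add_one_le_exp y
  have h4 : Real.exp (-y) * Real.exp y = 1 := by rw [← Real.exp_add]; simp
  calc mu a n * (2 + ((n : ℝ) + 1) * ((1 - a) / a)) ≤ mu a n * (2 * (y + 1)) :=
        mul_le_mul_of_nonneg_left h2 hm.le
    _ ≤ mu a n * (2 * Real.exp y) := by
        apply mul_le_mul_of_nonneg_left _ hm.le
        linarith
    _ = 2 * (Real.exp (-y) * Real.exp y) := by rw [h1]; ring
    _ = 2 := by rw [h4]; ring

lemma key_bound {a : ℝ} (ha : 0 < a) (ha1 : a < 1) (n : ℕ) :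
    (NN a n : ℝ) * mu a n * (1 + Real.log (NN a n)) ≤ 4 + (1 - a) / a := by
  have h1 := log_NN_le ha ha1 n
  have h2 := NN_mul_mu_le a n
  have h3 := mu_mul_le ha ha1 n
  have h4 := bpow_mul_le ha ha1 n
  have h5 := bpow_le ha n
  have hg : 0 ≤ (1 - a) / a := div_nonneg (by linarith) ha.le
  have hN : (1 : ℝ) ≤ NN a n := by exact_mod_cast NN_pos a n
  have hm := mu_pos a n
  have hb := bpow_pos a n
  have hlog : 0 ≤ Real.log (NN a n) := Real.log_nonneg hN
  calc (NN a n : ℝ) * mu a n * (1 + Real.log (NN a n)) ≤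
        (((n : ℝ) + 1) ^ (-(1 / a)) + mu a n) * (2 + ((n : ℝ) + 1) * ((1 - a) / a)) := by
        apply mul_le_mul h2 (by linarith) (by linarith) (by positivity)
    _ = 2 * ((n : ℝ) + 1) ^ (-(1 / a)) +
        (((n : ℝ) + 1) ^ (-(1 / a)) * ((n : ℝ) + 1)) * ((1 - a) / a) +
        mu a n * (2 + ((n : ℝ) + 1) * ((1 - a) / a)) := by ring
    _ ≤ 2 * 1 + 1 * ((1 - a) / a) + 2 := by
        have := mul_le_mul_of_nonneg_right h4 hg
        linarith
    _ = _ := by ring

/-- The index set. -/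
abbrev Idx (a : ℝ) : Type := Σ n : ℕ, Fin (NN a n)

instance (a : ℝ) : Nonempty (Idx a) := ⟨⟨0, ⟨0, NN_pos a 0⟩⟩⟩

lemma summable_mu {a : ℝ} (ha : 0 < a) (ha1 : a < 1) : Summable (fun n => mu a n) := by
  have hg : 0 < (1 - a) / a := div_pos (by linarith) ha
  have h1 : (fun n => mu a n) = fun n : ℕ => ((1 / 2 : ℝ) ^ ((1 - a) / a)) ^ (n + 1) := by
    funext n
    rw [mu, hh, ← Real.rpow_natCast, ← Real.rpow_natCast, ← Real.rpow_mul (by norm_num),
      ← Real.rpow_mul (by norm_num), mul_comm]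
  rw [h1]
  have h2 : Summable (fun n : ℕ => ((1 / 2 : ℝ) ^ ((1 - a) / a)) ^ n) := by
    apply summable_geometric_of_lt_one (by positivity)
    exact Real.rpow_lt_one (by norm_num) (by norm_num) hg
  exact (summable_nat_add_iff 1).2 h2

lemma summable_bpow {a : ℝ} (ha : 0 < a) (ha1 : a < 1) :
    Summable (fun n : ℕ => ((n : ℝ) + 1) ^ (-(1 / a))) := by
  have h1 : Summable (fun n : ℕ => ((n : ℝ)) ^ (-(1 / a))) := by
    rw [Real.summable_nat_rpow]
    have : 1 < 1 / a := by rw [lt_div_iff₀ ha]; linarith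
    linarith
  have h2 := (summable_nat_add_iff 1).2 h1
  simpa using h2

lemma summable_idx {a : ℝ} (ha : 0 < a) (ha1 : a < 1) :
    Summable (fun i : Idx a => mu a i.1) := by
  rw [summable_sigma_of_nonneg fun i => (mu_pos a i.1).le]
  constructor
  · intro n
    exact (hasSum_fintype _).summable
  · have h1 : (fun n => ∑' k : Fin (NN a n), mu a n) = fun n => (NN a n : ℝ) * mu a n := by
      funext n
      rw [tsum_fintype]
      simp
    show Summable (fun n => ∑' k : Fin (NN a n), mu a n)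
    rw [h1]
    refine Summable.of_nonneg_of_le (fun n => ?_) (fun n => NN_mul_mu_le a n)
      ((summable_bpow ha ha1).add (summable_mu ha ha1))
    have := mu_pos a n
    positivity

/-- The angle. -/
noncomputable def th (a : ℝ) (i : Idx a) : ℝ :=
  hh i.1 * (1 + ((i.2 : ℕ) : ℝ) / (2 * (NN a i.1 : ℝ)))

lemma th_ge (a : ℝ) (i : Idx a) : hh i.1 ≤ th a i := by
  have h1 := hh_pos i.1
  have h2 : 0 ≤ ((i.2 : ℕ) : ℝ) / (2 * (NN a i.1 : ℝ)) := by positivity
  unfold th
  nlinarith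

lemma th_lt (a : ℝ) (i : Idx a) : th a i ≤ 3 / 2 * hh i.1 := by
  have h1 := hh_pos i.1
  have hN : (0 : ℝ) < NN a i.1 := by exact_mod_cast NN_pos a i.1
  have h2 : ((i.2 : ℕ) : ℝ) / (2 * (NN a i.1 : ℝ)) ≤ 1 / 2 := by
    rw [div_le_iff₀ (by positivity)]
    have : ((i.2 : ℕ) : ℝ) ≤ NN a i.1 := by exact_mod_cast i.2.2.le
    linarith
  unfold th
  nlinarith

lemma th_pos (a : ℝ) (i : Idx a) : 0 < th a i := lt_of_lt_of_le (hh_pos _) (th_ge a i)

lemma th_le_one (a : ℝ) (i : Idx a) : th a i ≤ 1 := by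
  have := th_lt a i
  have := hh_le i.1
  linarith

lemma th_sub_le (a : ℝ) (i j : Idx a) : |th a i - th a j| ≤ 3 := by
  have h1 := th_pos a i
  have h2 := th_pos a j
  have h3 := th_le_one a i
  have h4 := th_le_one a j
  rw [abs_le]
  constructor <;> linarith

lemma th_block (a : ℝ) {i j : Idx a} (h : i.1 ≠ j.1) : hh j.1 / 4 ≤ |th a i - th a j| := by
  have h1 := th_ge a i
  have h2 := th_ge a j
  have h3 := th_lt a i
  have h4 := th_lt a j
  have h5 := hh_pos i.1
  have h6 := hh_pos j.1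
  rcases lt_or_gt_of_ne h with h | h
  · have := hh_lt h
    have := le_abs_self (th a i - th a j)
    linarith
  · have := hh_lt h
    have := neg_le_abs (th a i - th a j)
    linarith

lemma th_same (a : ℝ) (n : ℕ) (k l : Fin (NN a n)) :
    |th a ⟨n, l⟩ - th a ⟨n, k⟩| = hh n / (2 * NN a n) * |((l : ℕ) : ℝ) - ((k : ℕ) : ℝ)| := by
  have h1 := hh_pos n
  have hN : (0 : ℝ) < NN a n := by exact_mod_cast NN_pos a n
  have : th a ⟨n, l⟩ - th a ⟨n, k⟩ =
      hh n / (2 * NN a n) * (((l : ℕ) : ℝ) - ((k : ℕ) : ℝ)) := by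
    unfold th
    field_simp
    ring
  rw [this, abs_mul, abs_of_pos (by positivity : 0 < hh n / (2 * NN a n))]

lemma th_pos_sub (a : ℝ) {i j : Idx a} (h : i ≠ j) : 0 < |th a i - th a j| := by
  by_cases hij : i.1 = j.1
  · obtain ⟨n, l⟩ := i
    obtain ⟨m, k⟩ := j
    simp only at hij
    subst hij
    rw [th_same]
    have h1 := hh_pos n
    have hN : (0 : ℝ) < NN a n := by exact_mod_cast NN_pos a n
    have hlk : l ≠ k := fun h' => h (by rw [h'])
    have h2 : ((l : ℕ) : ℝ) - ((k : ℕ) : ℝ) ≠ 0 := by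
      rw [sub_ne_zero]
      intro h'
      exact hlk (Fin.ext (by exact_mod_cast h'))
    have := abs_pos.2 h2
    positivity
  · have := th_block a hij
    have := hh_pos j.1
    linarith

/-- Harmonic sums. -/
lemma harm_le (N : ℕ) : ∑ i ∈ Finset.range N, ((i : ℝ) + 1)⁻¹ ≤ 1 + Real.log N := by
  have h := harmonic_le_one_add_log N
  simp only [harmonic, Rat.cast_sum, Rat.cast_inv, Rat.cast_natCast] at h
  push_cast at h
  exact h

lemma harm_mono {m N : ℕ} (h : m ≤ N) :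
    ∑ i ∈ Finset.range m, ((i : ℝ) + 1)⁻¹ ≤ ∑ i ∈ Finset.range N, ((i : ℝ) + 1)⁻¹ := by
  apply Finset.sum_le_sum_of_subset_of_nonneg
  · exact Finset.range_mono h
  · intro i _ _
    positivity

lemma harm_two {N k : ℕ} (hk : k < N) :
    ∑ l ∈ (Finset.range N).erase k, |(l : ℝ) - k|⁻¹ ≤ 2 * (1 + Real.log N) := by
  have hsplit : (Finset.range N).erase k = Finset.range k ∪ Finset.Ico (k + 1) N := by
    ext l
    simp only [Finset.mem_erase, Finset.mem_range, Finset.mem_union, Finset.mem_Ico]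
    omega
  have hdisj : Disjoint (Finset.range k) (Finset.Ico (k + 1) N) := by
    rw [Finset.disjoint_left]
    intro l h1 h2
    rw [Finset.mem_range] at h1
    rw [Finset.mem_Ico] at h2
    omega
  rw [hsplit, Finset.sum_union hdisj]
  have h1 : ∑ l ∈ Finset.range k, |(l : ℝ) - k|⁻¹ = ∑ i ∈ Finset.range k, ((i : ℝ) + 1)⁻¹ := by
    rw [← Finset.sum_range_reflect]
    apply Finset.sum_congr rfl
    intro i hi
    rw [Finset.mem_range] at hi
    have h2 : ((k - 1 - i : ℕ) : ℝ) = (k : ℝ) - 1 - i := by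
      rw [Nat.cast_sub (by omega), Nat.cast_sub (by omega)]
      simp
    rw [h2, abs_sub_comm, abs_of_nonneg]
    · congr 1
      ring
    · have : (i : ℝ) + 1 ≤ k := by exact_mod_cast hi
      linarith
  have h2 : ∑ l ∈ Finset.Ico (k + 1) N, |(l : ℝ) - k|⁻¹ =
      ∑ i ∈ Finset.range (N - (k + 1)), ((i : ℝ) + 1)⁻¹ := by
    rw [Finset.sum_Ico_eq_sum_range]
    apply Finset.sum_congr rfl
    intro i _
    have : (((k + 1 + i : ℕ)) : ℝ) - k = i + 1 := by push_cast; ring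
    rw [this, abs_of_nonneg (by positivity)]
  rw [h1, h2]
  have h3 := harm_mono hk.le
  have h4 := harm_mono (show N - (k + 1) ≤ N by omega)
  have h5 := harm_le N
  linarith

/-- The total mass. -/
noncomputable def SS (a : ℝ) : ℝ := ∑' i : Idx a, mu a i.1

lemma sum_mu_le {a : ℝ} (ha : 0 < a) (ha1 : a < 1) (T : Finset (Idx a)) :
    ∑ i ∈ T, mu a i.1 ≤ SS a :=
  (summable_idx ha ha1).sum_le_tsum T fun i _ => (mu_pos a i.1).le

lemma sum_same {a : ℝ} (n : ℕ) (k : Fin (NN a n))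
    (T : Finset (Idx a)) (hT : (⟨n, k⟩ : Idx a) ∉ T) :
    ∑ i ∈ T.filter (fun i => i.1 = n), mu a i.1 / |th a i - th a ⟨n, k⟩| ≤
      4 * (NN a n * mu a n * (1 + Real.log (NN a n))) / hh n := by
  classical
  have h1 := hh_pos n
  have hN : (0 : ℝ) < NN a n := by exact_mod_cast NN_pos a n
  have hm := mu_pos a n
  have hsub : T.filter (fun i => i.1 = n) ⊆
      ((Finset.univ : Finset (Fin (NN a n))).erase k).map
        ⟨fun l => (⟨n, l⟩ : Idx a), fun l l' h => by simpa using h⟩ := by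
    rintro ⟨m, l⟩ hi
    rw [Finset.mem_filter] at hi
    obtain ⟨hi1, hi2⟩ := hi
    simp only at hi2
    subst hi2
    rw [Finset.mem_map]
    refine ⟨l, ?_, rfl⟩
    rw [Finset.mem_erase]
    refine ⟨?_, Finset.mem_univ _⟩
    rintro rfl
    exact hT hi1
  refine (Finset.sum_le_sum_of_subset_of_nonneg hsub ?_).trans ?_
  · intro i _ _
    have := (mu_pos a i.1).le
    positivity
  rw [Finset.sum_map]
  simp only [Function.Embedding.coeFn_mk]
  have h2 : ∀ l ∈ (Finset.univ : Finset (Fin (NN a n))).erase k,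
      mu a n / |th a ⟨n, l⟩ - th a ⟨n, k⟩| =
        (2 * (NN a n * mu a n) / hh n) * |((l : ℕ) : ℝ) - ((k : ℕ) : ℝ)|⁻¹ := by
    intro l hl
    rw [th_same]
    have hlk : l ≠ k := Finset.ne_of_mem_erase hl
    have h2 : ((l : ℕ) : ℝ) - ((k : ℕ) : ℝ) ≠ 0 := by
      rw [sub_ne_zero]
      intro h'
      exact hlk (Fin.ext (by exact_mod_cast h'))
    have h3 := abs_pos.2 h2
    field_simp
  rw [Finset.sum_congr rfl h2, ← Finset.mul_sum]
  have h3 : ∑ l ∈ (Finset.univ : Finset (Fin (NN a n))).erase k,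
      |((l : ℕ) : ℝ) - ((k : ℕ) : ℝ)|⁻¹ =
      ∑ l ∈ (Finset.range (NN a n)).erase (k : ℕ), |(l : ℝ) - ((k : ℕ) : ℝ)|⁻¹ := by
    refine Finset.sum_bij (fun l _ => (l : ℕ)) ?_ ?_ ?_ ?_
    · intro l hl
      rw [Finset.mem_erase, Finset.mem_range]
      exact ⟨fun h => Finset.ne_of_mem_erase hl (Fin.ext h), l.2⟩
    · intro l _ l' _ h
      exact Fin.ext h
    · intro l hl
      rw [Finset.mem_erase, Finset.mem_range] at hl
      refine ⟨⟨l, hl.2⟩, ?_, rfl⟩
      rw [Finset.mem_erase]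
      refine ⟨?_, Finset.mem_univ _⟩
      intro h
      apply hl.1
      rw [← h]
    · intro l _
      rfl
  rw [h3]
  calc (2 * (NN a n * mu a n) / hh n) *
        ∑ l ∈ (Finset.range (NN a n)).erase (k : ℕ), |(l : ℝ) - ((k : ℕ) : ℝ)|⁻¹ ≤
        (2 * (NN a n * mu a n) / hh n) * (2 * (1 + Real.log (NN a n))) :=
        mul_le_mul_of_nonneg_left (harm_two k.2) (by positivity)
    _ = _ := by ring

lemma sum_other {a : ℝ} (ha : 0 < a) (ha1 : a < 1) (j : Idx a) (T : Finset (Idx a)) :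
    ∑ i ∈ T.filter (fun i => ¬ i.1 = j.1), mu a i.1 / |th a i - th a j| ≤ 4 * SS a / hh j.1 := by
  have h1 := hh_pos j.1
  calc ∑ i ∈ T.filter (fun i => ¬ i.1 = j.1), mu a i.1 / |th a i - th a j| ≤
        ∑ i ∈ T.filter (fun i => ¬ i.1 = j.1), (4 / hh j.1) * mu a i.1 := by
        apply Finset.sum_le_sum
        intro i hi
        rw [Finset.mem_filter] at hi
        have h2 := th_block a hi.2
        calc mu a i.1 / |th a i - th a j| ≤ mu a i.1 / (hh j.1 / 4) :=
              div_le_div_of_nonneg_left (mu_pos a _).le (by positivity) h2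
          _ = _ := by field_simp
    _ = (4 / hh j.1) * ∑ i ∈ T.filter (fun i => ¬ i.1 = j.1), mu a i.1 := by
        rw [Finset.mul_sum]
    _ ≤ (4 / hh j.1) * SS a := mul_le_mul_of_nonneg_left (sum_mu_le ha ha1 _) (by positivity)
    _ = _ := by ring

lemma sum_all {a : ℝ} (ha : 0 < a) (ha1 : a < 1) (j : Idx a) (T : Finset (Idx a)) (hT : j ∉ T) :
    ∑ i ∈ T, mu a i.1 / |th a i - th a j| ≤ 4 * (SS a + (4 + (1 - a) / a)) / hh j.1 := by
  have h1 := hh_pos j.1
  rw [← Finset.sum_filter_add_sum_filter_not T (fun i => i.1 = j.1)]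
  have h2 := sum_same (a := a) j.1 j.2 T hT
  have h3 := sum_other ha ha1 j T
  have h4 : 4 * (NN a j.1 * mu a j.1 * (1 + Real.log (NN a j.1))) / hh j.1 ≤
      4 * (4 + (1 - a) / a) / hh j.1 := by
    apply div_le_div_of_nonneg_right _ h1.le
    apply mul_le_mul_of_nonneg_left _ (by norm_num)
    exact key_bound ha ha1 j.1
  have h5 : 4 * (SS a + (4 + (1 - a) / a)) / hh j.1 =
      4 * (4 + (1 - a) / a) / hh j.1 + 4 * SS a / hh j.1 := by ring
  rw [h5]
  exact add_le_add (h2.trans h4) h3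

lemma SS_nonneg (a : ℝ) : 0 ≤ SS a := tsum_nonneg fun i => (mu_pos a i.1).le

lemma r_pow {a : ℝ} (ha : 0 < a) (n : ℕ) : ((hh n) ^ (1 / a)) ^ a = hh n := by
  rw [← Real.rpow_mul (hh_pos n).le]
  have : 1 / a * a = 1 := by field_simp
  rw [this, Real.rpow_one]

lemma r_pow2 {a : ℝ} (n : ℕ) : ((hh n) ^ (1 / a)) ^ (1 - a) = mu a n := by
  rw [← Real.rpow_mul (hh_pos n).le, mu]
  congr 1
  ring

/-- The points. -/
noncomputable def theDat {a : ℝ} (ha : 0 < a) (ha1 : a < 1) : Dat a (Idx a) where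
  ζ i := ee (th a i)
  r i := (hh i.1) ^ (1 / a)
  S := SS a
  B := 12 * (SS a + (4 + (1 - a) / a))
  hζ i := norm_ee _
  hr i := Real.rpow_pos_of_pos (hh_pos _) _
  ne1 i := by
    intro h
    have h1 := chord_ge (x := th a i) (y := 0) (by
      have := th_pos a i
      have := th_le_one a i
      rw [sub_zero, abs_le]
      constructor <;> linarith)
    rw [ee_zero, h, sub_self, norm_zero, sub_zero, abs_of_pos (th_pos a i)] at h1
    have := th_pos a i
    linarith
  inj i j hij := by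
    intro h
    have h1 := chord_ge (th_sub_le a i j)
    rw [h, sub_self, norm_zero] at h1
    have := th_pos_sub a hij
    linarith
  hx i := by
    rw [r_pow ha]
    have h1 := chord_le (th a i) 0
    rw [ee_zero, sub_zero, abs_of_pos (th_pos a i)] at h1
    have := th_lt a i
    have := hh_pos i.1
    linarith
  hS T := by
    simp only [r_pow2]
    exact sum_mu_le ha ha1 T
  hB0 := by
    have h1 := SS_nonneg a
    have h2 : 0 ≤ (1 - a) / a := div_nonneg (by linarith) ha.le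
    positivity
  hB j T hT := by
    simp only [r_pow2]
    have h1 := sum_all ha ha1 j T hT
    have h2 : ∑ i ∈ T, mu a i.1 / ‖ee (th a i) - ee (th a j)‖ ≤
        ∑ i ∈ T, 2 * (mu a i.1 / |th a i - th a j|) := by
      apply Finset.sum_le_sum
      intro i hi
      have hij : i ≠ j := fun h => hT (h ▸ hi)
      have h3 := th_pos_sub a hij
      have h4 := chord_ge (th_sub_le a i j)
      calc mu a i.1 / ‖ee (th a i) - ee (th a j)‖ ≤ mu a i.1 / (|th a i - th a j| / 2) :=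
            div_le_div_of_nonneg_left (mu_pos a _).le (by positivity) h4
        _ = _ := by field_simp
    rw [← Finset.mul_sum] at h2
    have hh0 := hh_pos j.1
    have h5 : 0 < ‖ee (th a j) - 1‖ := by
      have h1 := chord_ge (x := th a j) (y := 0) (by
        have := th_pos a j
        have := th_le_one a j
        rw [sub_zero, abs_le]
        constructor <;> linarith)
      rw [ee_zero, sub_zero, abs_of_pos (th_pos a j)] at h1
      have := th_pos a j
      linarith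
    have h6 : ‖ee (th a j) - 1‖ ≤ 3 / 2 * hh j.1 := by
      have h1 := chord_le (th a j) 0
      rw [ee_zero, sub_zero, abs_of_pos (th_pos a j)] at h1
      exact h1.trans (th_lt a j)
    have hP : 0 ≤ SS a + (4 + (1 - a) / a) := by
      have h1 := SS_nonneg a
      have h2 : 0 ≤ (1 - a) / a := div_nonneg (by linarith) ha.le
      positivity
    refine h2.trans ?_
    calc 2 * ∑ i ∈ T, mu a i.1 / |th a i - th a j| ≤
          2 * (4 * (SS a + (4 + (1 - a) / a)) / hh j.1) :=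
          mul_le_mul_of_nonneg_left h1 (by norm_num)
      _ = 12 * (SS a + (4 + (1 - a) / a)) / (3 / 2 * hh j.1) := by
          field_simp
          ring
      _ ≤ 12 * (SS a + (4 + (1 - a) / a)) / ‖ee (th a j) - 1‖ :=
          div_le_div_of_nonneg_left (by positivity) h5 h6

end Pool.Agent.Y285.PK
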